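import Mathlib

set_option autoImplicit false

namespace Pool.Agent.H457R3.HS

open Finset

/-- sign of a bit -/
def sg (b : Bool) : ℝ := if b then 1 else -1

lemma sg_true : sg true = 1 := by simp [sg]
lemma sg_false : sg false = -1 := by simp [sg]
lemma sg_not (b : Bool) : sg (!b) = -sg b := by cases b <;> simp [sg]
lemma sg_mul_self (b : Bool) : sg b * sg b = 1 := by cases b <;> simp [sg]
lemma sg_sq (b : Bool) : sg b ^ 2 = 1 := by cases b <;> simp [sg]
lemma abs_sg (b : Bool) : |sg b| = 1 := by cases b <;> simp [sg]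
lemma sg_beq (a b : Bool) : sg (a == b) = sg a * sg b := by cases a <;> cases b <;> simp [sg]

section
variable {ι : Type*} [Fintype ι] [DecidableEq ι]

/-- uniform average over the cube -/
noncomputable def ex (F : (ι → Bool) → ℝ) : ℝ := (∑ y, F y) / 2 ^ Fintype.card ι

lemma ex_const (c : ℝ) : ex (fun _ : ι → Bool => c) = c := by
  unfold ex
  simp

lemma ex_add (F G : (ι → Bool) → ℝ) : ex (fun y => F y + G y) = ex F + ex G := by
  unfold ex
  rw [sum_add_distrib, add_div]

lemma ex_sub (F G : (ι → Bool) → ℝ) : ex (fun y => F y - G y) = ex F - ex G := by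
  unfold ex
  rw [sum_sub_distrib, sub_div]

lemma ex_mul_left (c : ℝ) (F : (ι → Bool) → ℝ) : ex (fun y => c * F y) = c * ex F := by
  unfold ex
  rw [← mul_sum, mul_div_assoc]

lemma ex_mul_right (c : ℝ) (F : (ι → Bool) → ℝ) : ex (fun y => F y * c) = ex F * c := by
  unfold ex
  rw [← sum_mul, div_mul_eq_mul_div]

lemma ex_neg (F : (ι → Bool) → ℝ) : ex (fun y => -F y) = -ex F := by
  unfold ex
  rw [sum_neg_distrib, neg_div]

lemma ex_sum {κ : Type*} (s : Finset κ) (F : κ → (ι → Bool) → ℝ) :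
    ex (fun y => ∑ k ∈ s, F k y) = ∑ k ∈ s, ex (F k) := by
  unfold ex
  rw [sum_comm, sum_div]

lemma ex_mono {F G : (ι → Bool) → ℝ} (h : ∀ y, F y ≤ G y) : ex F ≤ ex G := by
  unfold ex
  exact div_le_div_of_nonneg_right (sum_le_sum fun y _ => h y) (by positivity)

lemma ex_nonneg {F : (ι → Bool) → ℝ} (h : ∀ y, 0 ≤ F y) : 0 ≤ ex F := by
  unfold ex
  exact div_nonneg (sum_nonneg fun y _ => h y) (by positivity)

lemma abs_ex_le (F : (ι → Bool) → ℝ) : |ex F| ≤ ex (fun y => |F y|) := by
  unfold ex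
  rw [abs_div, abs_of_pos (by positivity : (0:ℝ) < 2 ^ Fintype.card ι)]
  exact div_le_div_of_nonneg_right (abs_sum_le_sum_abs _ _) (by positivity)

lemma ex_equiv (e : (ι → Bool) ≃ (ι → Bool)) (F : (ι → Bool) → ℝ) :
    ex (fun y => F (e y)) = ex F := by
  unfold ex
  rw [Equiv.sum_comp e F]

lemma ex_pos_exists {F : (ι → Bool) → ℝ} (h : 0 < ex F) : ∃ y, 0 < F y := by
  by_contra hcon
  push Not at hcon
  have : ex F ≤ ex (fun _ : ι → Bool => (0:ℝ)) := ex_mono hcon
  rw [ex_const] at this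
  linarith

/-- flip the coordinates in `S` -/
def flip (S : Finset ι) (y : ι → Bool) : ι → Bool := fun j => if j ∈ S then !y j else y j

lemma flip_flip (S : Finset ι) (y : ι → Bool) : flip S (flip S y) = y := by
  funext j
  unfold flip
  by_cases h : j ∈ S <;> simp [h]

/-- flipping as an equivalence -/
def flipEquiv (S : Finset ι) : (ι → Bool) ≃ (ι → Bool) :=
  ⟨flip S, flip S, flip_flip S, flip_flip S⟩

lemma ex_flip (S : Finset ι) (F : (ι → Bool) → ℝ) : ex (fun y => F (flip S y)) = ex F :=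
  ex_equiv (flipEquiv S) F

/-- if `F` does not depend on coordinate `j`, its product with that sign averages to zero -/
lemma ex_mul_sg_zero (j : ι) (F : (ι → Bool) → ℝ) (hF : ∀ y, F (flip {j} y) = F y) :
    ex (fun y => F y * sg (y j)) = 0 := by
  have h := ex_flip {j} (fun y => F y * sg (y j))
  have h2 : (fun y : ι → Bool => F (flip {j} y) * sg (flip {j} y j)) =
      fun y => -(F y * sg (y j)) := by
    funext y
    rw [hF y]
    simp [flip, sg_not]
  rw [h2, ex_neg] at h
  linarith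

lemma ex_prod (G : ι → Bool → ℝ) :
    ex (fun y => ∏ j, G j (y j)) = ∏ j, ((G j true + G j false) / 2) := by
  unfold ex
  have h := Finset.prod_univ_sum (fun _ : ι => (univ : Finset Bool)) (fun j b => G j b)
  rw [Fintype.piFinset_univ] at h
  rw [← h, prod_div_distrib]
  simp

lemma ex_sg_mul (i j : ι) : ex (fun y : ι → Bool => sg (y i) * sg (y j)) = if i = j then 1 else 0 := by
  by_cases h : i = j
  · subst h
    simp [sg_mul_self, ex_const]
  · rw [if_neg h]
    refine ex_mul_sg_zero j (fun y => sg (y i)) (fun y => ?_)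
    simp [flip, h]

/-- linear form on the cube -/
def ev (a : ι → ℝ) (y : ι → Bool) : ℝ := ∑ j, a j * sg (y j)

lemma ex_ev_sq (a : ι → ℝ) : ex (fun y => ev a y ^ 2) = ∑ j, a j ^ 2 := by
  have h1 : ∀ y : ι → Bool, ev a y ^ 2 = ∑ i, ∑ j, (a i * a j) * (sg (y i) * sg (y j)) := by
    intro y
    unfold ev
    rw [sq, sum_mul_sum]
    refine sum_congr rfl fun i _ => sum_congr rfl fun j _ => ?_
    ring
  simp only [h1]
  rw [ex_sum]
  have h2 : ∀ i : ι, ex (fun y : ι → Bool => ∑ j, (a i * a j) * (sg (y i) * sg (y j))) = a i ^ 2 := by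
    intro i
    rw [ex_sum]
    simp only [ex_mul_left, ex_sg_mul]
    simp [sq]
  simp only [h2]

lemma ex_cos (x : ℝ) (b : ι → ℝ) :
    ex (fun y => Real.cos (x + ev b y)) = Real.cos x * ∏ j, Real.cos (b j) := by
  have hc : (∑ y : ι → Bool, Complex.exp (((x + ev b y : ℝ) : ℂ) * Complex.I)) =
      Complex.exp ((x : ℂ) * Complex.I) * ∏ j, (2 * (Real.cos (b j) : ℂ)) := by
    have h := Finset.prod_univ_sum (fun _ : ι => (univ : Finset Bool))
      (fun j c => Complex.exp (((b j * sg c : ℝ) : ℂ) * Complex.I))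
    rw [Fintype.piFinset_univ] at h
    have h3 : ∀ j : ι, (∑ c : Bool, Complex.exp (((b j * sg c : ℝ) : ℂ) * Complex.I)) =
        2 * (Real.cos (b j) : ℂ) := by
      intro j
      rw [Fintype.sum_bool, sg_true, sg_false]
      rw [Complex.ofReal_cos, Complex.cos]
      push_cast
      rw [mul_div_cancel₀ _ (two_ne_zero)]
      ring_nf
    simp only [h3] at h
    rw [h, mul_sum]
    refine sum_congr rfl fun y _ => ?_
    rw [← Complex.exp_sum, ← Complex.exp_add]
    congr 1
    unfold ev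
    push_cast
    rw [add_mul, sum_mul]
  have hre := congrArg Complex.re hc
  rw [Complex.re_sum] at hre
  simp only [Complex.exp_ofReal_mul_I_re] at hre
  rw [prod_mul_distrib, prod_const, card_univ] at hre
  have h4 : (Complex.exp ((x : ℂ) * Complex.I) * ((2:ℂ) ^ Fintype.card ι * ∏ j, (Real.cos (b j) : ℂ))).re =
      Real.cos x * (2 ^ Fintype.card ι * ∏ j, Real.cos (b j)) := by
    have h5 : ((2:ℂ) ^ Fintype.card ι * ∏ j, (Real.cos (b j) : ℂ)) =
        (((2:ℝ) ^ Fintype.card ι * ∏ j, Real.cos (b j) : ℝ) : ℂ) := by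
      push_cast
      rfl
    rw [h5, Complex.re_mul_ofReal, Complex.exp_ofReal_mul_I_re]
  rw [h4] at hre
  unfold ex
  rw [hre]
  have : (2:ℝ) ^ Fintype.card ι ≠ 0 := by positivity
  field_simp

lemma abs_ex_cos_le (x : ℝ) (b : ι → ℝ) :
    |ex (fun y => Real.cos (x + ev b y))| ≤ ∏ j, |Real.cos (b j)| := by
  rw [ex_cos, abs_mul, abs_prod]
  have h1 := Real.abs_cos_le_one x
  have h2 : 0 ≤ ∏ j, |Real.cos (b j)| := prod_nonneg fun _ _ => abs_nonneg _
  nlinarith

end

end Pool.Agent.H457R3.HS
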