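import Pool.Agent.H457R3.HS.Basic

set_option autoImplicit false

namespace Pool.Agent.H457R3.HS

open Finset

/-- the sign vector of a cube point -/
noncomputable def bv {ι : Type*} [Fintype ι] (y : ι → Bool) : EuclideanSpace ℝ ι :=
  WithLp.toLp 2 (fun j => sg (y j))

section
variable {ι : Type*} [Fintype ι] [DecidableEq ι]

lemma inner_bv (v : EuclideanSpace ℝ ι) (y : ι → Bool) : inner ℝ v (bv y) = ev (fun j => v j) y := by
  unfold ev bv
  rw [PiLp.inner_apply]
  refine sum_congr rfl fun j _ => ?_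
  simp [mul_comm]

lemma norm_sq_sum (v : EuclideanSpace ℝ ι) : ‖v‖ ^ 2 = ∑ j, v j ^ 2 := by
  rw [EuclideanSpace.norm_sq_eq]
  simp

end

/-- rounding a linear form to one that vanishes exactly where the form is small, one set -/
lemma round_set (r : ℕ) (S : Finset (Fin r → Bool)) :
    ∃ C : ℝ, 0 < C ∧ ∀ v : Fin r → ℝ, ∀ s : ℝ, 0 ≤ s → (∀ y ∈ S, |ev v y| ≤ s) →
      ∃ α : Fin r → ℝ, (∀ y ∈ S, ev α y = 0) ∧ ∑ j, (v j - α j) ^ 2 ≤ (C * s) ^ 2 := by
  classical
  let W : Submodule ℝ (EuclideanSpace ℝ (Fin r)) := Submodule.span ℝ ((fun y => bv y) '' (S : Set (Fin r → Bool)))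
  let T : W →ₗ[ℝ] (S → ℝ) := LinearMap.pi (fun y => (innerₗ (EuclideanSpace ℝ (Fin r)) (bv y.1)).comp W.subtype)
  have hT : ∀ (p : W) (y : S), T p y = inner ℝ (bv y.1) (p : EuclideanSpace ℝ (Fin r)) := by
    intro p y
    simp [T]
  have hker : LinearMap.ker T = ⊥ := by
    rw [LinearMap.ker_eq_bot']
    intro p hp
    have h1 : ∀ u ∈ W, inner ℝ u (p : EuclideanSpace ℝ (Fin r)) = 0 := by
      intro u hu
      refine Submodule.span_induction (p := fun u _ => inner ℝ u (p : EuclideanSpace ℝ (Fin r)) = 0) ?_ ?_ ?_ ?_ hu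
      · rintro _ ⟨y, hy, rfl⟩
        have := congrFun hp ⟨y, hy⟩
        rw [hT] at this
        exact this
      · simp
      · intro a b _ _ ha hb
        rw [inner_add_left, ha, hb, add_zero]
      · intro c a _ ha
        rw [inner_smul_left, ha, mul_zero]
    have h2 := h1 p p.2
    have h3 : (p : EuclideanSpace ℝ (Fin r)) = 0 := inner_self_eq_zero.mp h2
    exact Subtype.ext h3
  obtain ⟨K, hK, hanti⟩ := T.exists_antilipschitzWith hker
  refine ⟨K, by exact_mod_cast hK, fun v s hs hv => ?_⟩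
  obtain ⟨p, hp, q, hq, hpq⟩ := W.exists_add_mem_mem_orthogonal (WithLp.toLp 2 v : EuclideanSpace ℝ (Fin r))
  have hqy : ∀ y ∈ S, ev (fun j => q j) y = 0 := by
    intro y hy
    rw [← inner_bv]
    have : bv y ∈ W := Submodule.subset_span ⟨y, hy, rfl⟩
    rw [real_inner_comm]
    exact (Submodule.mem_orthogonal W q).mp hq _ this
  refine ⟨fun j => q j, hqy, ?_⟩
  have hpv : ∀ j, v j - q j = p j := by
    intro j
    have := congrArg (fun u : EuclideanSpace ℝ (Fin r) => u j) hpq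
    simp only [PiLp.add_apply] at this
    have h5 : v j = p j + q j := this
    linarith
  simp only [hpv]
  rw [← norm_sq_sum]
  have h6 : ‖p‖ ≤ K * ‖T ⟨p, hp⟩‖ := by
    have := hanti.le_mul_dist ⟨p, hp⟩ 0
    rw [dist_zero_right, map_zero, dist_zero_right] at this
    exact this
  have h7 : ‖T ⟨p, hp⟩‖ ≤ s := by
    rw [pi_norm_le_iff_of_nonneg hs]
    intro y
    rw [hT, real_inner_comm, inner_bv, Real.norm_eq_abs]
    have h8 : ev (fun j => p j) y.1 = ev v y.1 := by
      have h9 := hqy y.1 y.2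
      have h10 : ev v y.1 = ev (fun j => p j) y.1 + ev (fun j => q j) y.1 := by
        unfold ev
        rw [← sum_add_distrib]
        refine sum_congr rfl fun j _ => ?_
        have h11 : v j = p j + q j := by linarith [hpv j]
        show v j * sg (y.1 j) = p j * sg (y.1 j) + q j * sg (y.1 j)
        rw [h11]; ring
      linarith
    rw [h8]
    exact hv y.1 y.2
  have hK0 : (0:ℝ) ≤ K := K.2
  exact pow_le_pow_left₀ (norm_nonneg _) (h6.trans (mul_le_mul_of_nonneg_left h7 hK0)) 2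

lemma round_r (r : ℕ) :
    ∃ C : ℝ, 0 < C ∧ ∀ S : Finset (Fin r → Bool), ∀ v : Fin r → ℝ, ∀ s : ℝ, 0 ≤ s →
      (∀ y ∈ S, |ev v y| ≤ s) →
      ∃ α : Fin r → ℝ, (∀ y ∈ S, ev α y = 0) ∧ ∑ j, (v j - α j) ^ 2 ≤ (C * s) ^ 2 := by
  classical
  choose C hC0 hC using round_set r
  refine ⟨∑ S, C S, ?_, fun S v s hs hv => ?_⟩
  · exact sum_pos (fun S _ => hC0 S) ⟨∅, mem_univ _⟩
  · obtain ⟨α, h1, h2⟩ := hC S v s hs hv
    refine ⟨α, h1, h2.trans ?_⟩
    have h3 : C S ≤ ∑ S, C S := single_le_sum (fun S _ => (hC0 S).le) (mem_univ S)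
    exact pow_le_pow_left₀ (mul_nonneg (hC0 S).le hs) (mul_le_mul_of_nonneg_right h3 hs) 2

lemma round_le (R : ℕ) :
    ∃ C : ℝ, 0 < C ∧ ∀ r ≤ R, ∀ S : Finset (Fin r → Bool), ∀ v : Fin r → ℝ, ∀ s : ℝ, 0 ≤ s →
      (∀ y ∈ S, |ev v y| ≤ s) →
      ∃ α : Fin r → ℝ, (∀ y ∈ S, ev α y = 0) ∧ ∑ j, (v j - α j) ^ 2 ≤ (C * s) ^ 2 := by
  choose C hC0 hC using round_r
  refine ⟨∑ r ∈ range (R + 1), C r, ?_, fun r hr S v s hs hv => ?_⟩
  · exact sum_pos (fun r _ => hC0 r) ⟨0, by simp⟩
  · obtain ⟨α, h1, h2⟩ := hC r S v s hs hv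
    refine ⟨α, h1, h2.trans ?_⟩
    have h3 : C r ≤ ∑ r ∈ range (R + 1), C r :=
      single_le_sum (fun r _ => (hC0 r).le) (mem_range.mpr (by omega))
    exact pow_le_pow_left₀ (mul_nonneg (hC0 r).le hs) (mul_le_mul_of_nonneg_right h3 hs) 2

/-- rounding the head part of a linear form -/
lemma round_head (R : ℕ) :
    ∃ C : ℝ, 0 < C ∧ ∀ (N : ℕ) (H : Finset (Fin N)), H.card ≤ R → ∀ (a : Fin N → ℝ) (s : ℝ), 0 ≤ s →
      ∃ α : Fin N → ℝ, (∀ j, j ∉ H → α j = 0) ∧
        (∀ y : Fin N → Bool, |∑ j ∈ H, a j * sg (y j)| ≤ s → ev α y = 0) ∧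
        ∑ j ∈ H, (a j - α j) ^ 2 ≤ (C * s) ^ 2 := by
  classical
  obtain ⟨C, hC0, hC⟩ := round_le R
  refine ⟨C, hC0, fun N H hH a s hs => ?_⟩
  let e : Fin H.card ≃ H := H.equivFin.symm
  have hsum : ∀ f : Fin N → ℝ, ∑ i, f (e i) = ∑ j ∈ H, f j := by
    intro f
    rw [Equiv.sum_comp e (fun j : H => f j), Finset.sum_coe_sort H f]
  let S : Finset (Fin H.card → Bool) := univ.filter (fun z => |ev (fun i => a (e i)) z| ≤ s)
  obtain ⟨α', h1, h2⟩ := hC H.card hH S (fun i => a (e i)) s hs (by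
    intro z hz
    simpa [S] using hz)
  let α : Fin N → ℝ := fun j => if h : j ∈ H then α' (e.symm ⟨j, h⟩) else 0
  have hα : ∀ i, α (e i) = α' i := by
    intro i
    simp only [α, (e i).2, dif_pos]
    congr 1
    rw [Equiv.symm_apply_eq]
  refine ⟨α, fun j hj => by simp [α, hj], fun y hy => ?_, ?_⟩
  · have h3 : (fun i => y (e i)) ∈ S := by
      simp only [S, mem_filter, mem_univ, true_and]
      have : ev (fun i => a (e i)) (fun i => y (e i)) = ∑ j ∈ H, a j * sg (y j) := by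
        unfold ev
        exact hsum (fun j => a j * sg (y j))
      rw [this]
      exact hy
    have h4 := h1 _ h3
    have h5 : ev α y = ev α' (fun i => y (e i)) := by
      unfold ev
      have h6 := hsum (fun j => α j * sg (y j))
      simp only [hα] at h6
      rw [h6]
      symm
      refine sum_subset (subset_univ H) (fun j _ hj => ?_)
      simp [α, hj]
    rw [h5, h4]
  · have h7 := hsum (fun j => (a j - α j) ^ 2)
    simp only [hα] at h7
    rw [← h7]
    exact h2

/-- a subspace has an information set of at most its dimension -/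
lemma info_set {N : ℕ} (W : Submodule ℝ (EuclideanSpace ℝ (Fin N))) :
    ∃ I : Finset (Fin N), I.card ≤ Module.finrank ℝ W ∧
      ∀ w ∈ W, (∀ i ∈ I, w i = 0) → w = 0 := by
  classical
  let P : Finset (Fin N) → Prop := fun I => ∀ w ∈ W, (∀ i ∈ I, w i = 0) → w = 0
  have hP : P univ := by
    intro w _ h
    ext i
    simpa using h i (mem_univ i)
  obtain ⟨I, hI, hmin⟩ : ∃ I, P I ∧ ∀ J, P J → I.card ≤ J.card := by
    have hne : (univ.filter P).Nonempty := ⟨univ, by simp [hP]⟩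
    obtain ⟨I, hI, hmin⟩ := exists_min_image (univ.filter P) (fun I => I.card) hne
    exact ⟨I, by simpa using hI, fun J hJ => hmin J (by simpa using hJ)⟩
  refine ⟨I, ?_, hI⟩
  have hw : ∀ i : I, ∃ w ∈ W, (∀ j ∈ I, j ≠ i → w j = 0) ∧ w i.1 ≠ 0 := by
    intro i
    have hnot : ¬ P (I.erase i) := by
      intro h
      have h1 := hmin _ h
      have h2 := card_erase_lt_of_mem i.2
      omega
    simp only [P] at hnot
    push Not at hnot
    obtain ⟨w, hwW, hw0, hwne⟩ := hnot
    refine ⟨w, hwW, fun j hj hji => hw0 j (mem_erase.mpr ⟨hji, hj⟩), fun h0 => hwne ?_⟩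
    refine hI w hwW fun j hj => ?_
    by_cases hji : j = i.1
    · rw [hji, h0]
    · exact hw0 j (mem_erase.mpr ⟨hji, hj⟩)
  choose w hwW hw0 hwne using hw
  have hli : LinearIndependent ℝ (fun i : I => (⟨w i, hwW i⟩ : W)) := by
    rw [Fintype.linearIndependent_iff]
    intro g hg i
    have h1 := congrArg (fun u : W => (u : EuclideanSpace ℝ (Fin N)) i.1) hg
    simp only [Submodule.coe_sum, Submodule.coe_smul, ZeroMemClass.coe_zero, PiLp.zero_apply] at h1
    rw [WithLp.ofLp_sum, Finset.sum_apply] at h1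
    simp only [PiLp.smul_apply, smul_eq_mul] at h1
    rw [Finset.sum_eq_single i] at h1
    · rcases mul_eq_zero.mp h1 with h2 | h2
      · exact h2
      · exact absurd h2 (hwne i)
    · intro j _ hji
      rw [hw0 j i.1 i.2 (fun h => hji (Subtype.ext h.symm)), mul_zero]
    · intro h; exact absurd (mem_univ i) h
  have := hli.fintype_card_le_finrank
  simpa using this

/-- **Odlyzko**: few cube points are orthogonal to a large subspace -/
lemma odlyzko {N : ℕ} (K : Submodule ℝ (EuclideanSpace ℝ (Fin N))) (c : ℕ)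
    (hc : c ≤ Module.finrank ℝ K) (F : Finset (Fin N → Bool))
    (hF : ∀ y ∈ F, ∀ k ∈ K, ev (fun j => k j) y = 0) :
    (F.card : ℝ) / 2 ^ N ≤ (1 / 2) ^ c := by
  classical
  obtain ⟨I, hI, hinj⟩ := info_set Kᗮ
  have hfr := Submodule.finrank_add_finrank_orthogonal K
  rw [finrank_euclideanSpace_fin] at hfr
  have h1 : F.card ≤ 2 ^ I.card := by
    have h2 : F.card ≤ Fintype.card (I → Bool) := by
      rw [← Fintype.card_coe F]
      refine Fintype.card_le_of_injective (fun (y : F) (i : I) => y.1 i.1) ?_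
      intro y y' hyy
      have hW : ∀ z : F, bv z.1 ∈ Kᗮ := by
        intro z
        rw [Submodule.mem_orthogonal]
        intro k hk
        rw [inner_bv]
        exact hF z.1 z.2 k hk
      have h3 : bv y.1 - bv y'.1 = 0 := by
        refine hinj _ (Submodule.sub_mem _ (hW y) (hW y')) fun i hi => ?_
        have h4 := congrFun hyy ⟨i, hi⟩
        simp only at h4
        simp [bv, h4]
      have h5 : bv y.1 = bv y'.1 := sub_eq_zero.mp h3
      apply Subtype.ext
      funext j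
      have h6 := congrArg (fun u : EuclideanSpace ℝ (Fin N) => u j) h5
      simp only [bv] at h6
      revert h6
      cases y.1 j <;> cases y'.1 j <;> simp [sg] <;> norm_num
    simpa using h2
  have h2 : F.card * 2 ^ c ≤ 2 ^ N := by
    calc F.card * 2 ^ c ≤ 2 ^ I.card * 2 ^ c := Nat.mul_le_mul_right _ h1
      _ = 2 ^ (I.card + c) := by rw [pow_add]
      _ ≤ 2 ^ N := Nat.pow_le_pow_right (by norm_num) (by omega)
  have h3 : (F.card : ℝ) * 2 ^ c ≤ 2 ^ N := by exact_mod_cast h2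
  rw [one_div, inv_pow, ← one_div, div_le_div_iff₀ (by positivity) (by positivity)]
  linarith

end Pool.Agent.H457R3.HS
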