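import Pool.Agent.H457R3.HS.Basic

set_option autoImplicit false

namespace Pool.Agent.H457R3.HS

open Finset

/-- Minimax: a sign function that is far from every homogeneous halfspace carries a bounded
density all of whose signed first moments vanish. -/
theorem minimax {ι : Type*} [Fintype ι] [DecidableEq ι] (f : (ι → Bool) → ℝ) (B : ℝ) (hB : 0 < B)
    (hfar : ∀ v : ι → ℝ, 1 / B ≤ ex (fun x => if f x * ev v x ≤ 0 then (1:ℝ) else 0)) :
    ∃ w : (ι → Bool) → ℝ, (∀ x, 0 ≤ w x) ∧ (∀ x, w x ≤ B) ∧ ex w = 1 ∧
      ∀ i, ex (fun x => w x * f x * sg (x i)) = 0 := by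
  classical
  let D : Set ((ι → Bool) → ℝ) := {w | (∀ x, 0 ≤ w x ∧ w x ≤ B) ∧ ex w = 1}
  have hexlin : ∀ (c d : ℝ) (F G : (ι → Bool) → ℝ), ex (fun x => c * F x + d * G x) = c * ex F + d * ex G := by
    intro c d F G
    rw [ex_add, ex_mul_left, ex_mul_left]
  let L : ((ι → Bool) → ℝ) →ₗ[ℝ] (ι → ℝ) :=
    { toFun := fun w i => ex (fun x => w x * f x * sg (x i))
      map_add' := by
        intro u w
        funext i
        simp only [Pi.add_apply]
        rw [← ex_add]
        congr 1
        funext x
        ring
      map_smul' := by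
        intro c w
        funext i
        simp only [Pi.smul_apply, smul_eq_mul, RingHom.id_apply]
        rw [← ex_mul_left]
        congr 1
        funext x
        ring }
  have hconv : Convex ℝ D := by
    intro u hu w hw s t hs ht hst
    refine ⟨fun x => ?_, ?_⟩
    · have h1 := hu.1 x
      have h2 := hw.1 x
      simp only [Pi.add_apply, Pi.smul_apply, smul_eq_mul]
      constructor
      · nlinarith [mul_nonneg hs h1.1, mul_nonneg ht h2.1]
      · nlinarith [mul_le_mul_of_nonneg_left h1.2 hs, mul_le_mul_of_nonneg_left h2.2 ht]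
    · have : ex (s • u + t • w) = s * ex u + t * ex w := hexlin s t u w
      rw [this, hu.2, hw.2]
      linarith
  have hcont : Continuous (fun w : (ι → Bool) → ℝ => ex w) := by
    unfold ex
    fun_prop
  have hcomp : IsCompact D := by
    have h1 : D = (Set.pi Set.univ (fun _ : ι → Bool => Set.Icc (0:ℝ) B)) ∩ {w | ex w = 1} := by
      ext w
      simp only [D, Set.mem_setOf_eq, Set.mem_inter_iff, Set.mem_pi, Set.mem_univ, true_implies,
        Set.mem_Icc]
    rw [h1]
    exact (isCompact_univ_pi fun _ => isCompact_Icc).inter_right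
      (isClosed_eq hcont continuous_const)
  have hLD : IsCompact (L '' D) := hcomp.image (LinearMap.continuous_of_finiteDimensional L)
  have hLc : Convex ℝ (L '' D) := hconv.linear_image L
  by_cases h0 : (0 : ι → ℝ) ∈ L '' D
  · obtain ⟨w, hw, hw0⟩ := h0
    refine ⟨w, fun x => (hw.1 x).1, fun x => (hw.1 x).2, hw.2, fun i => ?_⟩
    exact congrFun hw0 i
  · exfalso
    obtain ⟨g, u, hgu, hub⟩ := geometric_hahn_banach_point_closed hLc hLD.isClosed h0
    rw [map_zero] at hgu
    let v : ι → ℝ := fun i => g (Pi.single i 1)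
    have hg : ∀ c : ι → ℝ, g c = ∑ i, v i * c i := by
      intro c
      have h1 : c = ∑ i, c i • (Pi.single i (1:ℝ) : ι → ℝ) := by
        funext j
        simp [Finset.sum_apply, Pi.single_apply]
      conv_lhs => rw [h1]
      rw [map_sum]
      refine sum_congr rfl fun i _ => ?_
      rw [map_smul, smul_eq_mul, mul_comm]
    have hgL : ∀ w : (ι → Bool) → ℝ, g (L w) = ex (fun x => w x * (f x * ev v x)) := by
      intro w
      rw [hg]
      have h1 : ∀ i, v i * L w i = ex (fun x => v i * (w x * f x * sg (x i))) := by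
        intro i
        rw [ex_mul_left]
        rfl
      simp only [h1]
      rw [← ex_sum]
      congr 1
      funext x
      unfold ev
      rw [mul_sum, mul_sum]
      exact sum_congr rfl fun i _ => by ring
    set p := ex (fun x => if f x * ev v x ≤ 0 then (1:ℝ) else 0) with hp
    have hpB := hfar v
    rw [← hp] at hpB
    have hp0 : 0 < p := lt_of_lt_of_le (by positivity) hpB
    let w : (ι → Bool) → ℝ := fun x => p⁻¹ * (if f x * ev v x ≤ 0 then (1:ℝ) else 0)
    have hw : w ∈ D := by
      refine ⟨fun x => ?_, ?_⟩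
      · simp only [w]
        have h1 : p⁻¹ ≤ B := by
          rw [inv_le_comm₀ hp0 hB, ← one_div]
          exact hpB
        have h2 : 0 < p⁻¹ := by positivity
        split_ifs
        · rw [mul_one]; exact ⟨h2.le, h1⟩
        · rw [mul_zero]; exact ⟨le_rfl, hB.le⟩
      · simp only [w]
        rw [ex_mul_left, ← hp, inv_mul_cancel₀ hp0.ne']
    have h1 := hub (L w) ⟨w, hw, rfl⟩
    rw [hgL] at h1
    have h2 : ex (fun x => w x * (f x * ev v x)) ≤ ex (fun _ : ι → Bool => (0:ℝ)) := by
      refine ex_mono fun x => ?_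
      simp only [w]
      split_ifs with h3
      · rw [mul_one]
        exact mul_nonpos_of_nonneg_of_nonpos (by positivity) h3
      · rw [mul_zero, zero_mul]
    rw [ex_const] at h2
    linarith

end Pool.Agent.H457R3.HS
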