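import Pool.Agent.H457R3.HS.Walsh

set_option autoImplicit false

namespace Pool.Agent.H457R3.HS

open Finset

section
variable {κ : Type*} [Fintype κ] [DecidableEq κ] {M : ℕ}

/-- points of the block subcube -/
def X (z : κ → Bool) (b : κ → Fin M) (y : Fin M → Bool) : κ → Bool := fun o => (z o == y (b o))

lemma chi_X (T : Finset κ) (z : κ → Bool) (b : κ → Fin M) (y : Fin M → Bool) :
    chi T (X z b y) = chi T z * ∏ o ∈ T, sg (y (b o)) := by
  unfold chi X
  rw [← prod_mul_distrib]
  exact prod_congr rfl fun o _ => sg_beq _ _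

/-- coefficient of a character after blocking -/
noncomputable def cc (θ : (Fin M → Bool) → ℝ) (T : Finset κ) (b : κ → Fin M) : ℝ :=
  ex (fun y => (∏ o ∈ T, sg (y (b o))) * θ y)

lemma expand (h : (κ → Bool) → ℝ) (θ : (Fin M → Bool) → ℝ) (z : κ → Bool) (b : κ → Fin M) :
    ex (fun y => h (X z b y) * θ y) = ∑ T, (hat h T * cc θ T b) * chi T z := by
  have h1 : (fun y => h (X z b y) * θ y) =
      fun y => ∑ T, (hat h T * chi T z) * ((∏ o ∈ T, sg (y (b o))) * θ y) := by
    funext y
    rw [inversion h (X z b y), sum_mul]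
    refine sum_congr rfl fun T _ => ?_
    rw [chi_X]
    ring
  rw [h1, ex_sum]
  refine sum_congr rfl fun T _ => ?_
  rw [ex_mul_left]
  unfold cc
  ring

lemma expand_sq (h : (κ → Bool) → ℝ) (θ : (Fin M → Bool) → ℝ) (b : κ → Fin M) :
    ex (fun z => (ex (fun y => h (X z b y) * θ y)) ^ 2) = ∑ T, hat h T ^ 2 * cc θ T b ^ 2 := by
  simp only [expand]
  rw [parseval]
  exact sum_congr rfl fun T _ => by ring

/-- coordinatewise agreement -/
def beqv (y y' : Fin M → Bool) : Fin M → Bool := fun j => (y j == y' j)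

lemma beqv_beqv (y y' : Fin M → Bool) : beqv y (beqv y y') = y' := by
  funext j
  unfold beqv
  cases y j <;> cases y' j <;> rfl

lemma cc_sq (θ : (Fin M → Bool) → ℝ) (hθ : ∀ y y', θ (beqv y y') = θ y * θ y')
    (T : Finset κ) (b : κ → Fin M) : cc θ T b ^ 2 = cc θ T b := by
  set A : (Fin M → Bool) → ℝ := fun y => (∏ o ∈ T, sg (y (b o))) * θ y with hA
  have hmul : ∀ y y', A y * A y' = A (beqv y y') := by
    intro y y'
    simp only [hA]
    rw [hθ]
    have : ∏ o ∈ T, sg (beqv y y' (b o)) = (∏ o ∈ T, sg (y (b o))) * ∏ o ∈ T, sg (y' (b o)) := by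
      rw [← prod_mul_distrib]
      exact prod_congr rfl fun o _ => sg_beq _ _
    rw [this]
    ring
  have h1 : cc θ T b ^ 2 = ex (fun y => ex (fun y' => A (beqv y y'))) := by
    have h2 : ∀ y, ex (fun y' => A (beqv y y')) = A y * ex A := by
      intro y
      rw [← ex_mul_left]
      congr 1
      funext y'
      rw [hmul]
    simp only [h2]
    rw [ex_mul_right]
    show ex A ^ 2 = _
    ring
  have h3 : ∀ y, ex (fun y' => A (beqv y y')) = ex A := by
    intro y
    exact ex_equiv ⟨beqv y, beqv y, beqv_beqv y, beqv_beqv y⟩ A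
  rw [h1]
  simp only [h3]
  rw [ex_const]
  rfl

/-- average over block labellings -/
noncomputable def av (G : (κ → Fin M) → ℝ) : ℝ := (∑ b, G b) / (M : ℝ) ^ Fintype.card κ

/-- normalised sum of signs -/
noncomputable def mean (y : Fin M → Bool) : ℝ := (∑ j, sg (y j)) / M

lemma av_prod (hM : 0 < M) (T : Finset κ) (y : Fin M → Bool) :
    av (fun b : κ → Fin M => ∏ o ∈ T, sg (y (b o))) = mean y ^ T.card := by
  have hM' : (M:ℝ) ≠ 0 := by positivity
  have h := Finset.prod_univ_sum (fun _ : κ => (univ : Finset (Fin M)))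
    (fun o l => if o ∈ T then sg (y l) else 1)
  rw [Fintype.piFinset_univ] at h
  have h1 : ∀ b : κ → Fin M, ∏ o, (if o ∈ T then sg (y (b o)) else 1) = ∏ o ∈ T, sg (y (b o)) := by
    intro b
    rw [prod_ite_mem, univ_inter]
  simp only [h1] at h
  unfold av
  rw [← h]
  have h2 : ∀ o, (∑ l : Fin M, (if o ∈ T then sg (y l) else (1:ℝ))) = M * (if o ∈ T then mean y else 1) := by
    intro o
    by_cases ho : o ∈ T
    · simp only [ho, if_true]
      unfold mean
      field_simp
    · simp [ho]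
  simp only [h2]
  rw [prod_mul_distrib, prod_const, card_univ, prod_ite_mem, univ_inter, prod_const]
  field_simp

lemma av_cc (hM : 0 < M) (θ : (Fin M → Bool) → ℝ) (T : Finset κ) :
    av (fun b : κ → Fin M => cc θ T b) = ex (fun y => mean y ^ T.card * θ y) := by
  have h1 : ∀ y : Fin M → Bool, mean y ^ T.card * θ y =
      (∑ b : κ → Fin M, (∏ o ∈ T, sg (y (b o))) * θ y) / (M : ℝ) ^ Fintype.card κ := by
    intro y
    rw [← av_prod hM T y, ← sum_mul]
    unfold av
    ring
  simp only [h1]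
  unfold av cc ex
  rw [← sum_div, ← sum_div, sum_comm, div_div, div_div, mul_comm ((2:ℝ) ^ _)]

lemma av_mono {G G' : (κ → Fin M) → ℝ} (h : ∀ b, G b ≤ G' b) : av G ≤ av G' := by
  unfold av
  exact div_le_div_of_nonneg_right (sum_le_sum fun b _ => h b) (by positivity)

lemma av_sum {τ : Type*} (s : Finset τ) (G : τ → (κ → Fin M) → ℝ) :
    av (fun b => ∑ k ∈ s, G k b) = ∑ k ∈ s, av (G k) := by
  unfold av
  rw [sum_comm, sum_div]

lemma av_mul_left (c : ℝ) (G : (κ → Fin M) → ℝ) : av (fun b => c * G b) = c * av G := by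
  unfold av
  rw [← mul_sum, mul_div_assoc]

lemma av_const (hM : 0 < M) (c : ℝ) : av (fun _ : κ → Fin M => c) = c := by
  have hM' : (M:ℝ) ≠ 0 := by positivity
  unfold av
  rw [sum_const, card_univ, nsmul_eq_mul]
  simp only [Fintype.card_pi, Fintype.card_fin, prod_const, card_univ, Nat.cast_pow]
  field_simp

lemma av_add (G G' : (κ → Fin M) → ℝ) : av (fun b => G b + G' b) = av G + av G' := by
  unfold av
  rw [sum_add_distrib, add_div]

/-- negate all coordinates -/
lemma mean_flip (y : Fin M → Bool) : mean (flip univ y) = -mean y := by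
  unfold mean flip
  simp only [mem_univ, if_true, sg_not]
  rw [sum_neg_distrib, neg_div]

lemma ex_mean_odd (k : ℕ) (hk : Odd k) : ex (fun y : Fin M → Bool => mean y ^ k) = 0 := by
  have h := ex_flip (univ : Finset (Fin M)) (fun y : Fin M → Bool => mean y ^ k)
  simp only [mean_flip] at h
  have h2 : (fun y : Fin M → Bool => (-mean y) ^ k) = fun y => -(mean y ^ k) := by
    funext y
    exact hk.neg_pow _
  rw [h2, ex_neg] at h
  linarith

lemma abs_mean_le (hM : 0 < M) (y : Fin M → Bool) : |mean y| ≤ 1 := by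
  have hM' : (0:ℝ) < M := by positivity
  unfold mean
  rw [abs_div, abs_of_pos hM', div_le_one hM']
  calc |∑ j, sg (y j)| ≤ ∑ j, |sg (y j)| := abs_sum_le_sum_abs _ _
    _ = M := by simp [abs_sg]

lemma ex_mean2 (hM : 0 < M) : ex (fun y : Fin M → Bool => mean y ^ 2) = 1 / M := by
  have hM' : (M:ℝ) ≠ 0 := by positivity
  have h := moment2 (univ : Finset (Fin M))
  rw [card_univ, Fintype.card_fin] at h
  have h1 : (fun y : Fin M → Bool => mean y ^ 2) = fun y => (1 / (M:ℝ) ^ 2) * (∑ j, sg (y j)) ^ 2 := by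
    funext y
    unfold mean
    rw [div_pow]; ring
  rw [h1, ex_mul_left, h]
  field_simp

lemma ex_mean4 (hM : 0 < M) : ex (fun y : Fin M → Bool => mean y ^ 4) ≤ 3 / M ^ 2 := by
  have hM' : (0:ℝ) < M := by positivity
  have h := moment4 (univ : Finset (Fin M))
  rw [card_univ, Fintype.card_fin] at h
  have h1 : (fun y : Fin M → Bool => mean y ^ 4) = fun y => (1 / (M:ℝ) ^ 4) * (∑ j, sg (y j)) ^ 4 := by
    funext y
    unfold mean
    rw [div_pow]; ring
  rw [h1, ex_mul_left]
  calc 1 / (M:ℝ) ^ 4 * ex (fun y : Fin M → Bool => (∑ j, sg (y j)) ^ 4) ≤ 1 / (M:ℝ) ^ 4 * (3 * M ^ 2) :=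
        mul_le_mul_of_nonneg_left h (by positivity)
    _ = 3 / M ^ 2 := by field_simp

lemma pow_even_le {u : ℝ} (hu : |u| ≤ 1) {k l : ℕ} (hk : Even k) (hl : Even l) (hkl : k ≤ l) :
    u ^ l ≤ u ^ k := by
  have h1 : u ^ k = |u| ^ k := (hk.pow_abs u).symm
  have h2 : u ^ l = |u| ^ l := (hl.pow_abs u).symm
  rw [h1, h2]
  exact pow_le_pow_of_le_one (abs_nonneg _) hu hkl

lemma ex_mean_mass (hM : 0 < M) (k : ℕ) (hk : k ≠ 0) :
    ex (fun y : Fin M → Bool => mean y ^ k) ≤ 1 / M := by
  rcases Nat.even_or_odd k with h | h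
  · rw [← ex_mean2 hM]
    refine ex_mono fun y => pow_even_le (abs_mean_le hM y) even_two h ?_
    obtain ⟨r, hr⟩ := h
    omega
  · rw [ex_mean_odd k h]
    positivity

lemma ex_mean_lin (hM : 0 < M) (k : ℕ) (hk : k ≠ 1) :
    ex (fun y : Fin M → Bool => mean y ^ (k + 1)) ≤ 3 / M ^ 2 := by
  rcases Nat.even_or_odd (k + 1) with h | h
  · refine le_trans ?_ (ex_mean4 hM)
    refine ex_mono fun y => pow_even_le (abs_mean_le hM y) (by decide) h ?_
    obtain ⟨r, hr⟩ := h
    omega
  · rw [ex_mean_odd _ h]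
    positivity

theorem sample_mass (hM : 0 < M) (W : (κ → Bool) → ℝ) (hW : ex W = 0) :
    av (fun b : κ → Fin M => ex (fun z => (ex (fun y => W (X z b y))) ^ 2)) ≤
      1 / M * ex (fun x => W x ^ 2) := by
  have h0 : hat W ∅ = 0 := by
    unfold hat chi
    simpa using hW
  have h1 : ∀ b : κ → Fin M, ex (fun z => (ex (fun y => W (X z b y))) ^ 2) =
      ∑ T, hat W T ^ 2 * cc (fun _ => (1:ℝ)) T b := by
    intro b
    have h := expand_sq W (fun _ => (1:ℝ)) b
    simp only [mul_one] at h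
    rw [h]
    refine sum_congr rfl fun T _ => ?_
    rw [cc_sq]
    intro y y'; ring
  simp only [h1]
  rw [av_sum, ← sum_hat_sq, mul_sum]
  refine sum_le_sum fun T _ => ?_
  rw [av_mul_left, av_cc hM]
  simp only [mul_one]
  by_cases hT : T = ∅
  · rw [hT, h0]; simp
  · have h2 := ex_mean_mass hM T.card (by rwa [Ne, card_eq_zero])
    have h3 : 0 ≤ hat W T ^ 2 := sq_nonneg _
    nlinarith

theorem sample_lin (hM : 0 < M) (h : (κ → Bool) → ℝ) (hh : ∀ i, ex (fun x => h x * sg (x i)) = 0) :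
    av (fun b : κ → Fin M => ex (fun z => ∑ j, (ex (fun y => h (X z b y) * sg (y j))) ^ 2)) ≤
      3 / M * ex (fun x => h x ^ 2) := by
  have hM' : (0:ℝ) < M := by positivity
  have h1 : ∀ b : κ → Fin M, ex (fun z => ∑ j, (ex (fun y => h (X z b y) * sg (y j))) ^ 2) =
      ∑ T, hat h T ^ 2 * ∑ j, cc (fun y => sg (y j)) T b := by
    intro b
    rw [ex_sum]
    have h2 : ∀ j, ex (fun z => (ex (fun y => h (X z b y) * sg (y j))) ^ 2) =
        ∑ T, hat h T ^ 2 * cc (fun y => sg (y j)) T b := by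
      intro j
      rw [expand_sq]
      refine sum_congr rfl fun T _ => ?_
      rw [cc_sq]
      intro y y'
      exact sg_beq _ _
    simp only [h2]
    rw [sum_comm]
    exact sum_congr rfl fun T _ => by rw [mul_sum]
  simp only [h1]
  rw [av_sum, ← sum_hat_sq, mul_sum]
  refine sum_le_sum fun T _ => ?_
  rw [av_mul_left, av_sum]
  have h3 : ∑ j, av (fun b : κ → Fin M => cc (fun y => sg (y j)) T b) =
      M * ex (fun y : Fin M → Bool => mean y ^ (T.card + 1)) := by
    simp only [av_cc hM]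
    rw [← ex_sum, ← ex_mul_left]
    congr 1
    funext y
    rw [← mul_sum, pow_succ]
    unfold mean
    field_simp
  rw [h3]
  by_cases hT : T.card = 1
  · obtain ⟨i, rfl⟩ := card_eq_one.mp hT
    have h4 : hat h {i} = 0 := by
      unfold hat chi
      simpa using hh i
    rw [h4]; simp
  · have h2 := ex_mean_lin hM T.card hT
    have h5 : 0 ≤ hat h T ^ 2 := sq_nonneg _
    have h6 : (M:ℝ) * ex (fun y : Fin M → Bool => mean y ^ (T.card + 1)) ≤ 3 / M := by
      calc (M:ℝ) * ex (fun y : Fin M → Bool => mean y ^ (T.card + 1)) ≤ M * (3 / M ^ 2) :=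
            mul_le_mul_of_nonneg_left h2 hM'.le
        _ = 3 / M := by field_simp
    nlinarith

end

end Pool.Agent.H457R3.HS
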