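import Pool.Agent.H457R3.HS.Margin
import Pool.Agent.H457R3.HS.Minimax
import Pool.Agent.H457R3.HS.Sample

set_option autoImplicit false

namespace Pool.Agent.H457R3.HS

open Finset

/-- dehomogenisation of cube points -/
def pt {n : ℕ} (x : Option (Fin n) → Bool) : Fin n → Bool := fun i => (x (some i) == x none)

/-- the splitting equivalence -/
def ptEquiv (n : ℕ) : (Option (Fin n) → Bool) ≃ Bool × (Fin n → Bool) where
  toFun x := (x none, pt x)
  invFun p := fun o => match o with
    | none => p.1
    | some i => (p.2 i == p.1)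
  left_inv x := by
    funext o
    cases o with
    | none => rfl
    | some i => simp only [pt]; cases x (some i) <;> cases x none <;> rfl
  right_inv p := by
    refine Prod.ext rfl ?_
    funext i
    simp only [pt]
    cases p.2 i <;> cases p.1 <;> rfl

lemma ex_pt {n : ℕ} (G : (Fin n → Bool) → ℝ) : ex (fun x : Option (Fin n) → Bool => G (pt x)) = ex G := by
  unfold ex
  have h1 : ∑ x : Option (Fin n) → Bool, G (pt x) = ∑ p : Bool × (Fin n → Bool), G p.2 := by
    exact Equiv.sum_comp (ptEquiv n) (fun p => G p.2)
  rw [h1, Fintype.sum_prod_type]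
  simp only [sum_const, card_univ, Fintype.card_bool, Fintype.card_option, Fintype.card_fin]
  rw [pow_succ, nsmul_eq_mul]
  push_cast
  rw [mul_comm ((2:ℝ) ^ n) 2, mul_div_mul_left _ _ (two_ne_zero)]

lemma ev_pt {n : ℕ} (v : Option (Fin n) → ℝ) (x : Option (Fin n) → Bool) :
    ev v x = sg (x none) * (v none + ∑ i, v (some i) * sg (pt x i)) := by
  unfold ev
  rw [Fintype.sum_option, mul_add, mul_comm (v none), mul_sum]
  congr 1
  refine sum_congr rfl fun i _ => ?_
  simp only [pt, sg_beq]
  have := sg_mul_self (x none)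
  calc v (some i) * sg (x (some i)) = v (some i) * sg (x (some i)) * (sg (x none) * sg (x none)) := by
        rw [this, mul_one]
    _ = _ := by ring

lemma exists_shift {α : Type*} [Fintype α] [Nonempty α] (l : α → ℝ) :
    ∃ s : ℝ, 0 < s ∧ ∀ y, l y < 0 → l y + s < 0 := by
  classical
  obtain ⟨y0, _, hy0⟩ := exists_min_image (univ : Finset α) (fun y => if l y < 0 then -l y / 2 else 1)
    ⟨Classical.arbitrary α, mem_univ _⟩
  refine ⟨if l y0 < 0 then -l y0 / 2 else 1, ?_, fun y hy => ?_⟩
  · split_ifs with h
    · linarith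
    · norm_num
  · have h1 := hy0 y (mem_univ y)
    rw [if_pos hy] at h1
    linarith

lemma ev_block {n M : ℕ} (v : Option (Fin n) → ℝ) (z : Option (Fin n) → Bool)
    (b : Option (Fin n) → Fin M) (y : Fin M → Bool) :
    ev (fun j => ∑ o ∈ univ.filter (fun o => b o = j), v o * sg (z o)) y = ev v (X z b y) := by
  unfold ev X
  have h1 : ∀ j : Fin M, (∑ o ∈ univ.filter (fun o => b o = j), v o * sg (z o)) * sg (y j) =
      ∑ o ∈ univ.filter (fun o => b o = j), v o * (sg (z o) * sg (y (b o))) := by
    intro j
    rw [sum_mul]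
    refine sum_congr rfl fun o ho => ?_
    rw [(mem_filter.mp ho).2]
    ring
  simp only [h1]
  rw [sum_fiberwise]
  exact sum_congr rfl fun o _ => by rw [sg_beq]

/-- halfspace consistency of a list of labelled points -/
def Cons {n q : ℕ} (f : (Fin n → Bool) → Bool) (Q : Fin q → Fin n → Bool) : Prop :=
  ∃ w : Fin n → ℝ, ∃ θ : ℝ, ∀ j : Fin q, (f (Q j) = true ↔ θ ≤ ∑ i, w i * sg (Q j i))

theorem main (ε : ℝ) (hε : 0 < ε) : ∃ M : ℕ, 0 < M ∧ ∀ (n : ℕ) (e : Fin (2 ^ M) ≃ (Fin M → Bool))
    (f : (Fin n → Bool) → Bool),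
    (∀ (w : Fin n → ℝ) (θ : ℝ),
      ε ≤ ex (fun x => open Classical in if (f x = true ↔ θ ≤ ∑ i, w i * sg (x i)) then (0:ℝ) else 1)) →
    av (fun b : Option (Fin n) → Fin M => ex (fun z => open Classical in
      if Cons f (fun j => pt (X z b (e j))) then (1:ℝ) else 0)) ≤ 1 / 3 := by
  classical
  set B : ℝ := 1 / ε with hB
  have hB0 : 0 < B := by positivity
  obtain ⟨k0, hk0, hmargin⟩ := margin (1 / (2 * B)) (by positivity)
  obtain ⟨M, hM⟩ := exists_nat_gt (3 * (4 * B + 3 / (k0 * B)))
  have hMR : (0:ℝ) < M := lt_trans (by positivity) hM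
  have hM0 : 0 < M := by exact_mod_cast hMR
  refine ⟨M, hM0, fun n e f hfar => ?_⟩
  set F : (Option (Fin n) → Bool) → ℝ := fun x => sg (x none) * sg (f (pt x)) with hF
  have hFabs : ∀ x, |F x| = 1 := by
    intro x
    simp only [hF]
    rw [abs_mul, abs_sg, abs_sg, one_mul]
  obtain ⟨w, hw0, hwB, hw1, hwm⟩ := minimax F B hB0 (by
    intro v
    rw [hB, one_div_one_div]
    refine (hfar (fun i => v (some i)) (-v none)).trans ?_
    rw [← ex_pt]
    refine ex_mono fun x => ?_
    by_cases h : (f (pt x) = true ↔ -v none ≤ ∑ i, v (some i) * sg (pt x i))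
    · rw [if_pos h]
      split_ifs <;> norm_num
    · rw [if_neg h, if_pos]
      simp only [hF]
      rw [ev_pt]
      have h1 : sg (x none) * sg (f (pt x)) * (sg (x none) * (v none + ∑ i, v (some i) * sg (pt x i))) =
          sg (f (pt x)) * (v none + ∑ i, v (some i) * sg (pt x i)) := by
        have := sg_mul_self (x none)
        calc _ = (sg (x none) * sg (x none)) * (sg (f (pt x)) * (v none + ∑ i, v (some i) * sg (pt x i))) := by ring
          _ = _ := by rw [this, one_mul]
      rw [h1]
      by_cases hf : f (pt x) = true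
      · rw [hf, sg_true, one_mul]
        by_contra hcon
        push Not at hcon
        exact h ⟨fun _ => by linarith, fun _ => hf⟩
      · have hf' : f (pt x) = false := by simpa using hf
        rw [hf', sg_false]
        by_contra hcon
        push Not at hcon
        exact h ⟨fun hh => absurd hh hf, fun hh => by linarith⟩)
  -- second moments
  have hw2 : ex (fun x => w x ^ 2) ≤ B := by
    have h1 : ∀ x, w x ^ 2 ≤ B * w x := by
      intro x
      nlinarith [hw0 x, hwB x]
    refine (ex_mono h1).trans ?_
    rw [ex_mul_left, hw1, mul_one]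
  have hW : ex (fun x => (w x - 1) ^ 2) ≤ B := by
    have h1 : (fun x => (w x - 1) ^ 2) = fun x => w x ^ 2 + ((-2) * w x + 1) := by
      funext x; ring
    rw [h1, ex_add, ex_add, ex_mul_left, hw1, ex_const]
    linarith
  have hh2 : ex (fun x => (w x * F x) ^ 2) ≤ B := by
    have h1 : (fun x => (w x * F x) ^ 2) = fun x => w x ^ 2 := by
      funext x
      rw [mul_pow, ← sq_abs (F x), hFabs, one_pow, mul_one]
    rw [h1]
    exact hw2
  have hmass := sample_mass (κ := Option (Fin n)) hM0 (fun x => w x - 1) (by
    rw [ex_sub, hw1, ex_const, sub_self])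
  have hlin := sample_lin (κ := Option (Fin n)) hM0 (fun x => w x * F x) hwm
  -- pointwise bound
  have hpt : ∀ (b : Option (Fin n) → Fin M) (z : Option (Fin n) → Bool),
      (if Cons f (fun j => pt (X z b (e j))) then (1:ℝ) else 0) ≤
        4 * (ex (fun y => w (X z b y) - 1)) ^ 2 +
        1 / (k0 * B ^ 2) * ∑ j, (ex (fun y => w (X z b y) * F (X z b y) * sg (y j))) ^ 2 := by
    intro b z
    have hnn1 : 0 ≤ 4 * (ex (fun y => w (X z b y) - 1)) ^ 2 := by positivity
    have hnn2 : 0 ≤ 1 / (k0 * B ^ 2) * ∑ j, (ex (fun y => w (X z b y) * F (X z b y) * sg (y j))) ^ 2 :=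
      mul_nonneg (by positivity) (sum_nonneg fun _ _ => sq_nonneg _)
    split_ifs with hC
    swap
    · linarith
    have hexW : ex (fun y => w (X z b y) - 1) = ex (fun y => w (X z b y)) - 1 := by
      rw [ex_sub, ex_const]
    by_cases hm : ex (fun y => w (X z b y)) < 1 / 2
    · have : 1 ≤ 4 * (ex (fun y => w (X z b y) - 1)) ^ 2 := by
        rw [hexW]
        nlinarith
      linarith
    · push Not at hm
      obtain ⟨u, θ, hu⟩ := hC
      obtain ⟨s, hs, hs2⟩ := exists_shift (fun y : Fin M → Bool => ∑ i, u i * sg (pt (X z b y) i) - θ)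
      let v : Option (Fin n) → ℝ := fun o => match o with
        | none => -θ + s
        | some i => u i
      have hval : ∀ y : Fin M → Bool, 0 < sg (f (pt (X z b y))) *
          (v none + ∑ i, v (some i) * sg (pt (X z b y) i)) := by
        intro y
        have h1 := hu (e.symm y)
        simp only [Equiv.apply_symm_apply] at h1
        simp only [v]
        by_cases hf : f (pt (X z b y)) = true
        · rw [hf, sg_true, one_mul]
          have := h1.mp hf
          linarith
        · have hf' : f (pt (X z b y)) = false := by simpa using hf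
          have h2 : ∑ i, u i * sg (pt (X z b y) i) - θ < 0 := by
            by_contra hcon
            push Not at hcon
            exact hf (h1.mpr (by linarith))
          have h3 := hs2 y h2
          rw [hf', sg_false]
          linarith
      let a : EuclideanSpace ℝ (Fin M) :=
        WithLp.toLp 2 (fun j => ∑ o ∈ univ.filter (fun o => b o = j), v o * sg (z o))
      have ha : ∀ y, ev (fun j => a j) y = ev v (X z b y) := fun y => ev_block v z b y
      let h : (Fin M → Bool) → ℝ := fun y => B⁻¹ * (w (X z b y) * F (X z b y))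
      have hFev : ∀ y, F (X z b y) * ev v (X z b y) = sg (f (pt (X z b y))) *
          (v none + ∑ i, v (some i) * sg (pt (X z b y) i)) := by
        intro y
        rw [ev_pt]
        simp only [hF]
        have := sg_mul_self (X z b y none)
        calc _ = (sg (X z b y none) * sg (X z b y none)) * (sg (f (pt (X z b y))) *
              (v none + ∑ i, v (some i) * sg (pt (X z b y) i))) := by ring
          _ = _ := by rw [this, one_mul]
      have hD : Data a h (1 / (2 * B)) := by
        refine ⟨fun y => ?_, fun y => ?_, fun y _ => ?_, ?_⟩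
        · simp only [h]
          rw [abs_mul, abs_mul, hFabs, mul_one, abs_of_pos (inv_pos.mpr hB0), abs_of_nonneg (hw0 _)]
          rw [inv_mul_le_iff₀ hB0, mul_one]
          exact hwB _
        · rw [ha]
          simp only [h]
          have h1 : B⁻¹ * (w (X z b y) * F (X z b y)) * ev v (X z b y) =
              B⁻¹ * w (X z b y) * (F (X z b y) * ev v (X z b y)) := by ring
          rw [h1, hFev]
          exact mul_nonneg (mul_nonneg (by positivity) (hw0 _)) (hval y).le
        · rw [ha]
          intro h0
          have h1 := hFev y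
          rw [h0, mul_zero] at h1
          have h2 := hval y
          rw [← h1] at h2
          exact lt_irrefl _ h2
        · have h1 : (fun y => |h y|) = fun y => B⁻¹ * w (X z b y) := by
            funext y
            simp only [h]
            rw [abs_mul, abs_mul, hFabs, mul_one, abs_of_pos (inv_pos.mpr hB0), abs_of_nonneg (hw0 _)]
          rw [h1, ex_mul_left]
          have h2 : 1 / (2 * B) = B⁻¹ * (1 / 2) := by field_simp
          rw [h2]
          exact mul_le_mul_of_nonneg_left hm (by positivity)
      have h1 := hmargin M a h hD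
      have h2 : ∑ j, (ex (fun y => h y * sg (y j))) ^ 2 =
          (B⁻¹) ^ 2 * ∑ j, (ex (fun y => w (X z b y) * F (X z b y) * sg (y j))) ^ 2 := by
        rw [mul_sum]
        refine sum_congr rfl fun j _ => ?_
        have : (fun y => h y * sg (y j)) = fun y => B⁻¹ * (w (X z b y) * F (X z b y) * sg (y j)) := by
          funext y; simp only [h]; ring
        rw [this, ex_mul_left, mul_pow]
      rw [h2] at h1
      have h3 : 1 ≤ 1 / (k0 * B ^ 2) * ∑ j, (ex (fun y => w (X z b y) * F (X z b y) * sg (y j))) ^ 2 := by
        rw [one_div_mul_eq_div, le_div_iff₀ (by positivity), one_mul]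
        rw [inv_pow, inv_mul_eq_div, lt_div_iff₀ (by positivity)] at h1
        exact h1.le
      linarith
  have h1 : av (fun b : Option (Fin n) → Fin M => ex (fun z =>
      if Cons f (fun j => pt (X z b (e j))) then (1:ℝ) else 0)) ≤
      4 * av (fun b : Option (Fin n) → Fin M => ex (fun z => (ex (fun y => w (X z b y) - 1)) ^ 2)) +
      1 / (k0 * B ^ 2) * av (fun b : Option (Fin n) → Fin M => ex (fun z =>
        ∑ j, (ex (fun y => w (X z b y) * F (X z b y) * sg (y j))) ^ 2)) := by
    rw [← av_mul_left, ← av_mul_left, ← av_add]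
    refine av_mono fun b => ?_
    rw [← ex_mul_left, ← ex_mul_left, ← ex_add]
    exact ex_mono fun z => hpt b z
  refine h1.trans ?_
  have h2 : 4 * av (fun b : Option (Fin n) → Fin M => ex (fun z => (ex (fun y => w (X z b y) - 1)) ^ 2)) ≤
      4 * (1 / M * B) :=
    mul_le_mul_of_nonneg_left (hmass.trans (mul_le_mul_of_nonneg_left hW (by positivity))) (by norm_num)
  have h3 : 1 / (k0 * B ^ 2) * av (fun b : Option (Fin n) → Fin M => ex (fun z =>
        ∑ j, (ex (fun y => w (X z b y) * F (X z b y) * sg (y j))) ^ 2)) ≤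
      1 / (k0 * B ^ 2) * (3 / M * B) :=
    mul_le_mul_of_nonneg_left (hlin.trans (mul_le_mul_of_nonneg_left hh2 (by positivity))) (by positivity)
  have h4 : 4 * (1 / M * B) + 1 / (k0 * B ^ 2) * (3 / M * B) = (4 * B + 3 / (k0 * B)) / M := by
    field_simp
  have h5 : (4 * B + 3 / (k0 * B)) / M ≤ 1 / 3 := by
    rw [div_le_div_iff₀ hMR (by norm_num)]
    linarith
  linarith

end Pool.Agent.H457R3.HS
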