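import Pool.Agent.H457R3.HS.Step

set_option autoImplicit false

namespace Pool.Agent.H457R3.HS

open Finset

theorem iter (η : ℝ) (hη : 0 < η) (c : ℕ) : ∀ ρ : ℝ, 0 < ρ →
    ∃ δ : ℝ, 0 < δ ∧ ∀ (N : ℕ) (a : EuclideanSpace ℝ (Fin N)) (h : (Fin N → Bool) → ℝ),
      Data a h η → ∑ j, (ex (fun y => h y * sg (y j))) ^ 2 ≤ δ ^ 2 →
      ∃ K : Submodule ℝ (EuclideanSpace ℝ (Fin N)), c ≤ Module.finrank ℝ K ∧
        ex (fun y => |h y| * off K y) ≤ ρ := by
  induction c with
  | zero =>
    intro ρ hρ
    refine ⟨1, one_pos, fun N a h _ _ => ⟨⊥, Nat.zero_le _, ?_⟩⟩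
    have h1 : (fun y => |h y| * off (⊥ : Submodule ℝ (EuclideanSpace ℝ (Fin N))) y) = fun _ => (0:ℝ) := by
      funext y
      have : off (⊥ : Submodule ℝ (EuclideanSpace ℝ (Fin N))) y = 0 := by
        unfold off
        rw [if_pos]
        intro k hk
        rw [Submodule.mem_bot] at hk
        rw [hk]
        unfold ev
        simp
      rw [this, mul_zero]
    rw [h1, ex_const]
    exact hρ.le
  | succ c ih =>
    intro ρ hρ
    obtain ⟨δs, hδs, hstep⟩ := step η hη (ρ / 2) (by positivity)
    obtain ⟨δc, hδc, hc⟩ := ih (min δs (ρ / 2)) (lt_min hδs (by positivity))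
    refine ⟨min δs δc, lt_min hδs hδc, fun N a h hD hd => ?_⟩
    have hm0 : 0 ≤ min δs δc := le_min hδs.le hδc.le
    obtain ⟨K, hKc, hK⟩ := hc N a h hD
      (hd.trans (pow_le_pow_left₀ hm0 (min_le_right _ _) 2))
    obtain ⟨α, hα, hα2⟩ := hstep N a h hD
      (hd.trans (pow_le_pow_left₀ hm0 (min_le_left _ _) 2)) K (hK.trans (min_le_left _ _))
    refine ⟨K ⊔ Submodule.span ℝ {α}, ?_, ?_⟩
    · have hlt : K < K ⊔ Submodule.span ℝ {α} := by
        refine lt_of_le_of_ne le_sup_left fun heq => hα ?_
        rw [heq]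
        exact (le_sup_right : _ ≤ K ⊔ Submodule.span ℝ {α}) (Submodule.mem_span_singleton_self α)
      have := Submodule.finrank_lt_finrank_of_lt hlt
      omega
    · have h1 : ∀ y, |h y| * off (K ⊔ Submodule.span ℝ {α}) y ≤
          |h y| * off K y + |h y| * (if ev (fun j => α j) y = 0 then 0 else 1) := by
        intro y
        have h0 := abs_nonneg (h y)
        rw [← mul_add]
        refine mul_le_mul_of_nonneg_left ?_ h0
        by_cases h2 : ∀ k ∈ K, ev (fun j => k j) y = 0
        · by_cases h3 : ev (fun j => α j) y = 0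
          · have h4 : off (K ⊔ Submodule.span ℝ {α}) y = 0 := by
              unfold off
              rw [if_pos]
              intro k hk
              obtain ⟨k1, hk1, k2, hk2, rfl⟩ := Submodule.mem_sup.mp hk
              obtain ⟨t, rfl⟩ := Submodule.mem_span_singleton.mp hk2
              rw [ev_add', ev_smul', h2 k1 hk1, h3, mul_zero, add_zero]
            rw [h4, if_pos h3, add_zero]
            exact off_nonneg _ _
          · rw [if_neg h3]
            have := off_le_one (K ⊔ Submodule.span ℝ {α}) y
            have := off_nonneg K y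
            linarith
        · have h5 : off K y = 1 := by unfold off; rw [if_neg h2]
          rw [h5]
          have := off_le_one (K ⊔ Submodule.span ℝ {α}) y
          split_ifs <;> linarith
      refine (ex_mono h1).trans ?_
      rw [ex_add]
      have h6 := hK.trans (min_le_right δs (ρ / 2))
      linarith

/-- **Margin theorem for halfspaces**: the linear Fourier weight of a weighted halfspace is bounded
below in terms of the mass only. -/
theorem margin (η : ℝ) (hη : 0 < η) :
    ∃ κ : ℝ, 0 < κ ∧ ∀ (N : ℕ) (a : EuclideanSpace ℝ (Fin N)) (h : (Fin N → Bool) → ℝ),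
      Data a h η → κ < ∑ j, (ex (fun y => h y * sg (y j))) ^ 2 := by
  classical
  obtain ⟨c, hc⟩ := exists_pow_lt_of_lt_one (show (0:ℝ) < η / 2 by positivity)
    (show (1/2:ℝ) < 1 by norm_num)
  obtain ⟨δ, hδ, hit⟩ := iter η hη c (η / 2) (by positivity)
  refine ⟨δ ^ 2, by positivity, fun N a h hD => ?_⟩
  by_contra hcon
  push Not at hcon
  obtain ⟨K, hKc, hK⟩ := hit N a h hD hcon
  have h1 : η / 2 ≤ ex (fun y => |h y| * (1 - off K y)) := by
    have h2 : (fun y => |h y| * (1 - off K y)) = fun y => |h y| - |h y| * off K y := by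
      funext y; ring
    rw [h2, ex_sub]
    linarith [hD.mass]
  let F : Finset (Fin N → Bool) := univ.filter (fun y => ∀ k ∈ K, ev (fun j => k j) y = 0)
  have h3 := odlyzko K c hKc F (fun y hy => by simpa [F] using hy)
  have h4 : ex (fun y => |h y| * (1 - off K y)) ≤ (F.card : ℝ) / 2 ^ N := by
    have h5 : ∀ y, |h y| * (1 - off K y) ≤ if y ∈ F then (1:ℝ) else 0 := by
      intro y
      have hb := hD.bd y
      have h0 := abs_nonneg (h y)
      by_cases h6 : ∀ k ∈ K, ev (fun j => k j) y = 0
      · have h7 : off K y = 0 := by unfold off; rw [if_pos h6]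
        have h8 : y ∈ F := by simp only [F, mem_filter, mem_univ, true_and]; exact h6
        rw [h7, if_pos h8]
        linarith
      · have h7 : off K y = 1 := by unfold off; rw [if_neg h6]
        rw [h7, sub_self, mul_zero]
        split_ifs <;> norm_num
    refine (ex_mono h5).trans ?_
    unfold ex
    rw [Fintype.card_fin]
    simp
  linarith

end Pool.Agent.H457R3.HS
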