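import Pool.Agent.H457R3.HS.Small

set_option autoImplicit false

namespace Pool.Agent.H457R3.HS

open Finset

section
variable {ι : Type*} [Fintype ι] [DecidableEq ι]

lemma sum_sg_int {r : ℕ} (v : Fin r → Bool) :
    ∃ k : ℤ, (∑ j, sg (v j)) = (k : ℝ) := by
  refine ⟨∑ j, (if v j then 1 else -1), ?_⟩
  push_cast
  refine sum_congr rfl fun j _ => ?_
  unfold sg
  split_ifs <;> simp

lemma abs_sum_sg_le {r : ℕ} (v : Fin r → Bool) : |∑ j, sg (v j)| ≤ r := by
  calc |∑ j, sg (v j)| ≤ ∑ j, |sg (v j)| := abs_sum_le_sum_abs _ _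
    _ = r := by simp [abs_sg]

lemma cos_sq_le (u : ℝ) (hu : |u| ≤ Real.pi / 2) : Real.cos u ^ 2 ≤ 1 / (1 + u ^ 2) := by
  have h := abs_le.mp hu
  have hpi := Real.pi_pos
  have h1 := Real.cos_le_one_div_sqrt_sq_add_one (x := u) (by linarith) (by linarith)
  have h0 : 0 ≤ Real.cos u := Real.cos_nonneg_of_neg_pi_div_two_le_of_le (by linarith) (by linarith)
  calc Real.cos u ^ 2 ≤ (1 / Real.sqrt (u ^ 2 + 1)) ^ 2 := pow_le_pow_left₀ h0 h1 2
    _ = 1 / (1 + u ^ 2) := by
      rw [div_pow, one_pow, Real.sq_sqrt (by positivity), add_comm]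

lemma one_add_sum_le (s : Finset ι) (c : ι → ℝ) (hc : ∀ j, 0 ≤ c j) :
    1 + ∑ j ∈ s, c j ≤ ∏ j ∈ s, (1 + c j) := by
  induction s using Finset.induction_on with
  | empty => simp
  | insert j s hj ih =>
    rw [sum_insert hj, prod_insert hj]
    have h1 : 0 ≤ ∑ j ∈ s, c j := sum_nonneg fun i _ => hc i
    nlinarith [hc j]

lemma prod_cos_le (H : Finset ι) (a : ι → ℝ) (β ω : ℝ) (hω : 0 < ω) (hβ : β ≠ 0)
    (hs : ω ^ 2 ≤ ∑ j ∈ Hᶜ, a j ^ 2) (ht : ∀ j, j ∉ H → |β * a j| ≤ Real.pi / 2) :
    ∏ j, |Real.cos (β * a j)| ≤ 1 / (|β| * ω) := by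
  have h1 : ∏ j, |Real.cos (β * a j)| ≤ ∏ j ∈ Hᶜ, |Real.cos (β * a j)| := by
    rw [← prod_mul_prod_compl H]
    have h2 : ∏ j ∈ H, |Real.cos (β * a j)| ≤ 1 :=
      prod_le_one (fun _ _ => abs_nonneg _) (fun _ _ => Real.abs_cos_le_one _)
    have h3 : 0 ≤ ∏ j ∈ Hᶜ, |Real.cos (β * a j)| := prod_nonneg fun _ _ => abs_nonneg _
    nlinarith
  refine h1.trans ?_
  have hβ2 : 0 < |β| := abs_pos.mpr hβ
  refine (pow_le_pow_iff_left₀ (prod_nonneg fun _ _ => abs_nonneg _) (by positivity)
    two_ne_zero).mp ?_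
  rw [← prod_pow]
  calc ∏ j ∈ Hᶜ, |Real.cos (β * a j)| ^ 2 ≤ ∏ j ∈ Hᶜ, (1 / (1 + (β * a j) ^ 2)) := by
        refine prod_le_prod (fun _ _ => by positivity) (fun j hj => ?_)
        rw [sq_abs]
        exact cos_sq_le _ (ht j (by simpa using hj))
    _ = 1 / ∏ j ∈ Hᶜ, (1 + (β * a j) ^ 2) := by
        simp only [one_div]
        rw [← prod_inv_distrib]
    _ ≤ 1 / (1 + ∑ j ∈ Hᶜ, (β * a j) ^ 2) := by
        refine one_div_le_one_div_of_le ?_ (one_add_sum_le _ _ fun j => sq_nonneg _)
        have : 0 ≤ ∑ j ∈ Hᶜ, (β * a j) ^ 2 := sum_nonneg fun i _ => sq_nonneg _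
        linarith
    _ ≤ (1 / (|β| * ω)) ^ 2 := by
        rw [div_pow, one_pow, mul_pow, sq_abs]
        refine one_div_le_one_div_of_le (by positivity) ?_
        have h4 : ∑ j ∈ Hᶜ, (β * a j) ^ 2 = β ^ 2 * ∑ j ∈ Hᶜ, a j ^ 2 := by
          rw [mul_sum]
          exact sum_congr rfl fun j _ => by ring
        rw [h4]
        have : 0 < β ^ 2 := by positivity
        nlinarith

/-- small ball estimate for linear forms with many small coefficients -/
theorem reg_small (H : Finset ι) (a : ι → ℝ) (x t δ ω P : ℝ) (m : ℕ) (hm : 0 < m)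
    (hP : 0 < P) (hω : 0 < ω) (hδ0 : 0 ≤ δ)
    (ht : ∀ j, j ∉ H → |a j| ≤ t) (htP : 2 * (2 * m : ℝ) * t ≤ P)
    (hδ : (Real.pi * δ / P) ^ 2 * (2 * m) ≤ 1)
    (hs : ω ^ 2 ≤ ∑ j ∈ Hᶜ, a j ^ 2) :
    ex (fun y : ι → Bool => if |x + ev a y| ≤ δ then (1:ℝ) else 0) ≤
      2 * (((2 * m).choose m : ℝ) / 2 ^ (2 * m) + P / (Real.pi * ω)) := by
  classical
  have hpi := Real.pi_pos
  have hmR : (0:ℝ) < m := by exact_mod_cast hm
  -- step 1
  have hK : ∀ y : ι → Bool, (if |x + ev a y| ≤ δ then (1:ℝ) else 0) ≤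
      2 * Real.cos (Real.pi / P * (x + ev a y)) ^ (2 * m) := by
    intro y
    have hnn : 0 ≤ Real.cos (Real.pi / P * (x + ev a y)) ^ (2 * m) := by
      rw [pow_mul]; positivity
    split_ifs with h
    · set X := x + ev a y with hX
      have h1 : 1 - (Real.pi / P * X) ^ 2 / 2 ≤ Real.cos (Real.pi / P * X) :=
        Real.one_sub_sq_div_two_le_cos
      have hX2 : X ^ 2 ≤ δ ^ 2 := by
        rw [← sq_abs X]
        exact pow_le_pow_left₀ (abs_nonneg _) h 2
      have h2 : (Real.pi / P * X) ^ 2 ≤ (Real.pi * δ / P) ^ 2 := by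
        have e1 : (Real.pi / P * X) ^ 2 = (Real.pi / P) ^ 2 * X ^ 2 := by ring
        have e2 : (Real.pi * δ / P) ^ 2 = (Real.pi / P) ^ 2 * δ ^ 2 := by ring
        rw [e1, e2]
        exact mul_le_mul_of_nonneg_left hX2 (by positivity)
      set u := (Real.pi * δ / P) ^ 2 with hu
      have hu0 : 0 ≤ u := by positivity
      have hm1 : (1:ℝ) ≤ m := by exact_mod_cast hm
      have hu1 : u ≤ 1 / 2 := by nlinarith
      have h3 : 1 - u / 2 ≤ Real.cos (Real.pi / P * X) := by linarith
      have h4 : (1 - u / 2) ^ (2 * m) ≤ Real.cos (Real.pi / P * X) ^ (2 * m) :=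
        pow_le_pow_left₀ (by linarith) h3 _
      have h5 := one_add_mul_le_pow (a := -(u / 2)) (by linarith) (2 * m)
      have h6 : (1 + -(u / 2)) = 1 - u / 2 := by ring
      rw [h6] at h5
      push_cast at h5
      nlinarith
    · positivity
  -- step 2
  have hcos : ∀ θ : ℝ, Real.cos θ ^ (2 * m) =
      ex (fun v : Fin (2 * m) → Bool => Real.cos (θ * ∑ j, sg (v j))) := by
    intro θ
    have h := ex_cos (ι := Fin (2 * m)) 0 (fun _ => θ)
    rw [Real.cos_zero, one_mul, prod_const, card_univ, Fintype.card_fin] at h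
    rw [← h]
    congr 1
    funext v
    unfold ev
    rw [zero_add, mul_sum]
  have h7 : ex (fun y : ι → Bool => if |x + ev a y| ≤ δ then (1:ℝ) else 0) ≤
      2 * ex (fun v : Fin (2 * m) → Bool =>
        ex (fun y : ι → Bool => Real.cos (Real.pi / P * (x + ev a y) * ∑ j, sg (v j)))) := by
    calc _ ≤ ex (fun y : ι → Bool => 2 * Real.cos (Real.pi / P * (x + ev a y)) ^ (2 * m)) :=
          ex_mono hK
      _ = 2 * ex (fun y : ι → Bool => ex (fun v : Fin (2 * m) → Bool =>
            Real.cos (Real.pi / P * (x + ev a y) * ∑ j, sg (v j)))) := by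
          rw [ex_mul_left]
          simp only [hcos]
      _ = _ := by
          congr 1
          simp only [ex]
          rw [← sum_div, ← sum_div, sum_comm, div_div, div_div, mul_comm ((2:ℝ) ^ _)]
  -- step 3
  have h8 : ∀ v : Fin (2 * m) → Bool,
      ex (fun y : ι → Bool => Real.cos (Real.pi / P * (x + ev a y) * ∑ j, sg (v j))) ≤
        (if |(0:ℝ) + ev (fun _ => (1:ℝ)) v| ≤ 0 then (1:ℝ) else 0) + P / (Real.pi * ω) := by
    intro v
    have hev : (0:ℝ) + ev (fun _ => (1:ℝ)) v = ∑ j, sg (v j) := by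
      unfold ev; simp
    rw [hev]
    set S := ∑ j, sg (v j) with hS
    have hpos : 0 ≤ P / (Real.pi * ω) := by positivity
    by_cases hS0 : S = 0
    · rw [if_pos (by rw [hS0]; simp)]
      have : ex (fun y : ι → Bool => Real.cos (Real.pi / P * (x + ev a y) * S)) ≤
          ex (fun _ : ι → Bool => (1:ℝ)) := ex_mono fun y => Real.cos_le_one _
      rw [ex_const] at this
      linarith
    · rw [if_neg (by simpa using hS0), zero_add]
      set β := Real.pi / P * S with hβ
      have hfun : (fun y : ι → Bool => Real.cos (Real.pi / P * (x + ev a y) * S)) =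
          fun y => Real.cos (β * x + ev (fun j => β * a j) y) := by
        funext y
        congr 1
        have hev2 : ev (fun j => β * a j) y = β * ev a y := by
          unfold ev
          rw [mul_sum]
          exact sum_congr rfl fun j _ => by ring
        rw [hev2, hβ]
        ring
      rw [hfun]
      have hβ0 : β ≠ 0 := by
        rw [hβ]
        exact mul_ne_zero (by positivity) hS0
      obtain ⟨k, hk⟩ := sum_sg_int v
      have hS1 : 1 ≤ |S| := by
        rw [hS, hk]
        have hk0 : k ≠ 0 := by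
          rintro rfl
          apply hS0
          rw [hS, hk]; simp
        have : (1:ℤ) ≤ |k| := Int.one_le_abs hk0
        exact_mod_cast this
      have hS2 : |S| ≤ 2 * m := by
        have := abs_sum_sg_le v
        push_cast at this
        exact this
      have hbeta : |β| = Real.pi / P * |S| := by
        rw [hβ, abs_mul, abs_of_pos (by positivity : 0 < Real.pi / P)]
      have h9 := prod_cos_le H a β ω hω hβ0 hs (by
        intro j hj
        rw [abs_mul, hbeta]
        have h10 := ht j hj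
        have h11 : 0 ≤ |a j| := abs_nonneg _
        have h12 : |S| * |a j| ≤ (2 * m) * t := mul_le_mul hS2 h10 h11 (by positivity)
        calc Real.pi / P * |S| * |a j| = Real.pi / P * (|S| * |a j|) := by ring
          _ ≤ Real.pi / P * ((2 * m) * t) := mul_le_mul_of_nonneg_left h12 (by positivity)
          _ ≤ Real.pi / P * (P / 2) := mul_le_mul_of_nonneg_left (by linarith) (by positivity)
          _ = Real.pi / 2 := by field_simp)
      have h13 := abs_ex_cos_le (β * x) (fun j => β * a j)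
      have h14 := le_abs_self (ex (fun y : ι → Bool => Real.cos (β * x + ev (fun j => β * a j) y)))
      have h15 : 1 / (|β| * ω) ≤ P / (Real.pi * ω) := by
        rw [hbeta, div_le_div_iff₀ (by positivity) (by positivity)]
        have : P * (Real.pi / P * |S| * ω) = Real.pi * ω * |S| := by field_simp
        rw [this]
        nlinarith [mul_pos hpi hω]
      linarith
  -- conclusion
  have h16 : ex (fun v : Fin (2 * m) → Bool =>
        ex (fun y : ι → Bool => Real.cos (Real.pi / P * (x + ev a y) * ∑ j, sg (v j)))) ≤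
      ((2 * m).choose m : ℝ) / 2 ^ (2 * m) + P / (Real.pi * ω) := by
    refine (ex_mono h8).trans ?_
    rw [ex_add, ex_const]
    have h17 := lo (Function.Embedding.refl (Fin (2 * m))) (fun _ => (1:ℝ)) 0 1 0
      (by intro i; simp) one_pos
    rw [Nat.mul_div_cancel_left m (by norm_num)] at h17
    linarith
  linarith

end

end Pool.Agent.H457R3.HS
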