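import Pool.Agent.H457R3.HS.Basic

set_option autoImplicit false

namespace Pool.Agent.H457R3.HS

open Finset
open scoped symmDiff

theorem central_sq (k : ℕ) : (Nat.centralBinom k) ^ 2 * (2 * k + 1) ≤ 16 ^ k := by
  induction k with
  | zero => simp
  | succ k ih =>
    have h := Nat.succ_mul_centralBinom_succ k
    have h2 : ((k + 1) * Nat.centralBinom (k + 1)) ^ 2 * (2 * k + 3) ≤
        (k + 1) ^ 2 * 16 ^ (k + 1) := by
      rw [h]
      calc (2 * (2 * k + 1) * Nat.centralBinom k) ^ 2 * (2 * k + 3)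
          = (Nat.centralBinom k ^ 2 * (2 * k + 1)) * (4 * (2 * k + 1) * (2 * k + 3)) := by ring
        _ ≤ 16 ^ k * (4 * (2 * k + 1) * (2 * k + 3)) := Nat.mul_le_mul_right _ ih
        _ ≤ 16 ^ k * (16 * (k + 1) ^ 2) := Nat.mul_le_mul_left _ (by nlinarith)
        _ = (k + 1) ^ 2 * 16 ^ (k + 1) := by ring
    have h3 : (k + 1) ^ 2 * (Nat.centralBinom (k + 1) ^ 2 * (2 * (k + 1) + 1)) ≤
        (k + 1) ^ 2 * 16 ^ (k + 1) := by
      calc (k + 1) ^ 2 * (Nat.centralBinom (k + 1) ^ 2 * (2 * (k + 1) + 1))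
          = ((k + 1) * Nat.centralBinom (k + 1)) ^ 2 * (2 * k + 3) := by ring
        _ ≤ _ := h2
    exact Nat.le_of_mul_le_mul_left h3 (by positivity)

/-- `P(S_{2m}=0)` squared times `2m+1` is at most one -/
lemma choose_even_bound (m : ℕ) :
    (((2 * m).choose m : ℝ) / 2 ^ (2 * m)) ^ 2 * (2 * m + 1) ≤ 1 := by
  have h := central_sq m
  rw [Nat.centralBinom_eq_two_mul_choose] at h
  have h2 : (((2 * m).choose m : ℝ)) ^ 2 * (2 * m + 1) ≤ 16 ^ m := by exact_mod_cast h
  rw [div_pow, div_mul_eq_mul_div, div_le_one (by positivity)]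
  calc (((2 * m).choose m : ℝ)) ^ 2 * (2 * m + 1) ≤ 16 ^ m := h2
    _ = (2 ^ (2 * m)) ^ 2 := by
      rw [← pow_mul, show (16:ℝ) = 2 ^ 4 by norm_num, ← pow_mul]
      ring_nf

section
variable {ι : Type*} [Fintype ι] [DecidableEq ι]

lemma lo_fixed {r : ℕ} (e : Fin r ↪ ι) (a : ι → ℝ) (x t δ : ℝ)
    (ht : ∀ i, t ≤ |a (e i)|) (hδ : δ < t) (y : ι → Bool) :
    ((univ : Finset (Finset (Fin r))).filter
      (fun F => |x + ev a (flip (F.map e) y)| ≤ δ)).card ≤ r.choose (r / 2) := by
  classical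
  set F0 : Finset (Fin r) := univ.filter (fun i => 0 < a (e i) * sg (y (e i))) with hF0
  have hval : ∀ F : Finset (Fin r), ∀ i : Fin r,
      a (e i) * sg (flip (F.map e) y (e i)) = if i ∈ F ∆ F0 then |a (e i)| else -|a (e i)| := by
    intro F i
    have habs : |a (e i)| = |a (e i) * sg (y (e i))| := by rw [abs_mul, abs_sg, mul_one]
    rw [habs]
    have hflip : sg (flip (F.map e) y (e i)) = if i ∈ F then -sg (y (e i)) else sg (y (e i)) := by
      unfold flip
      by_cases hi : i ∈ F <;> simp [hi, sg_not]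
    rw [hflip]
    by_cases hi : i ∈ F <;> by_cases hc : 0 < a (e i) * sg (y (e i))
    · have h0 : i ∈ F0 := by simp [hF0, hc]
      simp only [mem_symmDiff, hi, h0, abs_of_pos hc]
      simp
    · have h0 : i ∉ F0 := by simp [hF0, hc]
      simp only [mem_symmDiff, hi, h0, abs_of_nonpos (not_lt.mp hc)]
      simp
    · have h0 : i ∈ F0 := by simp [hF0, hc]
      simp only [mem_symmDiff, hi, h0, abs_of_pos hc]
      simp
    · have h0 : i ∉ F0 := by simp [hF0, hc]
      simp only [mem_symmDiff, hi, h0, abs_of_nonpos (not_lt.mp hc)]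
      simp
  have hval2 : ∀ F : Finset (Fin r), ∀ j : ι, (∀ i, e i ≠ j) →
      a j * sg (flip (F.map e) y j) = a j * sg (y j) := by
    intro F j hj
    unfold flip
    rw [if_neg]
    rw [mem_map]
    rintro ⟨i, _, hi⟩
    exact hj i hi
  have htpos : ∀ i, 0 ≤ |a (e i)| := fun i => abs_nonneg _
  set 𝒜 := ((univ : Finset (Finset (Fin r))).filter
      (fun F => |x + ev a (flip (F.map e) y)| ≤ δ)) with hA
  have hinj : Function.Injective (fun F : Finset (Fin r) => F ∆ F0) := by
    intro F F' hFF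
    exact symmDiff_left_injective F0 hFF
  rw [← card_image_of_injective 𝒜 hinj]
  have hanti : IsAntichain (· ⊆ ·)
      ((𝒜.image (fun F => F ∆ F0) : Finset (Finset (Fin r))) : Set (Finset (Fin r))) := by
    intro G1 hG1 G2 hG2 hne hsub
    simp only [coe_image, Set.mem_image, mem_coe, hA, mem_filter, mem_univ, true_and] at hG1 hG2
    obtain ⟨F1, hF1, rfl⟩ := hG1
    obtain ⟨F2, hF2, rfl⟩ := hG2
    obtain ⟨i0, hi02, hi01⟩ : ∃ i, i ∈ F2 ∆ F0 ∧ i ∉ F1 ∆ F0 := by
      by_contra hcon
      push Not at hcon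
      exact hne (Finset.Subset.antisymm hsub hcon)
    have h1 : ev a (flip (F1.map e) y) + 2 * t ≤ ev a (flip (F2.map e) y) := by
      unfold ev
      rw [← add_sum_erase _ _ (mem_univ (e i0)),
        ← add_sum_erase _ (fun j => a j * sg (flip (F2.map e) y j)) (mem_univ (e i0))]
      have h2 : a (e i0) * sg (flip (F1.map e) y (e i0)) + 2 * t ≤
          a (e i0) * sg (flip (F2.map e) y (e i0)) := by
        rw [hval F1 i0, hval F2 i0, if_neg hi01, if_pos hi02]
        linarith [ht i0]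
      have h3 : ∑ j ∈ univ.erase (e i0), a j * sg (flip (F1.map e) y j) ≤
          ∑ j ∈ univ.erase (e i0), a j * sg (flip (F2.map e) y j) := by
        refine sum_le_sum fun j _ => ?_
        by_cases hj : ∃ i, e i = j
        · obtain ⟨i, rfl⟩ := hj
          rw [hval F1 i, hval F2 i]
          by_cases hj1 : i ∈ F1 ∆ F0
          · rw [if_pos hj1, if_pos (hsub hj1)]
          · rw [if_neg hj1]
            by_cases hj2 : i ∈ F2 ∆ F0
            · rw [if_pos hj2]; linarith [htpos i]
            · rw [if_neg hj2]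
        · push Not at hj
          rw [hval2 F1 j hj, hval2 F2 j hj]
      linarith
    have h4 := abs_le.mp hF1
    have h5 := abs_le.mp hF2
    linarith [h4.1, h5.2]
  have := hanti.sperner
  simpa using this

/-- **Littlewood–Offord** -/
theorem lo {r : ℕ} (e : Fin r ↪ ι) (a : ι → ℝ) (x t δ : ℝ)
    (ht : ∀ i, t ≤ |a (e i)|) (hδ : δ < t) :
    ex (fun y : ι → Bool => if |x + ev a y| ≤ δ then (1:ℝ) else 0) ≤
      (r.choose (r / 2) : ℝ) / 2 ^ r := by
  classical
  have h1 : ∀ F : Finset (Fin r),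
      ex (fun y : ι → Bool => if |x + ev a y| ≤ δ then (1:ℝ) else 0) =
      ex (fun y : ι → Bool => if |x + ev a (flip (F.map e) y)| ≤ δ then (1:ℝ) else 0) := by
    intro F
    exact (ex_flip (F.map e) (fun y : ι → Bool => if |x + ev a y| ≤ δ then (1:ℝ) else 0)).symm
  have h2 : ex (fun y : ι → Bool => if |x + ev a y| ≤ δ then (1:ℝ) else 0) * 2 ^ r ≤
      (r.choose (r / 2) : ℝ) := by
    calc ex (fun y : ι → Bool => if |x + ev a y| ≤ δ then (1:ℝ) else 0) * 2 ^ r
        = ∑ F : Finset (Fin r), ex (fun y : ι → Bool => if |x + ev a y| ≤ δ then (1:ℝ) else 0) := by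
          rw [sum_const, card_univ, Fintype.card_finset, Fintype.card_fin, nsmul_eq_mul, mul_comm]
          push_cast
          ring
      _ = ∑ F : Finset (Fin r),
          ex (fun y : ι → Bool => if |x + ev a (flip (F.map e) y)| ≤ δ then (1:ℝ) else 0) :=
          sum_congr rfl fun F _ => h1 F
      _ = ex (fun y : ι → Bool => ∑ F : Finset (Fin r),
            if |x + ev a (flip (F.map e) y)| ≤ δ then (1:ℝ) else 0) := by rw [ex_sum]
      _ ≤ ex (fun _ : ι → Bool => (r.choose (r / 2) : ℝ)) := by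
          refine ex_mono fun y => ?_
          have := lo_fixed e a x t δ ht hδ y
          rw [← Finset.sum_filter, sum_const, nsmul_eq_mul, mul_one]
          exact_mod_cast this
      _ = _ := ex_const _
  rw [le_div_iff₀ (by positivity)]
  exact h2

end

end Pool.Agent.H457R3.HS
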