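import Pool.Agent.H457R3.HS.Reg
import Pool.Agent.H457R3.HS.Lin

set_option autoImplicit false

namespace Pool.Agent.H457R3.HS

open Finset

/-- inverse small ball: concentrated unit linear forms are essentially of bounded support -/
theorem inverse_small_ball (η : ℝ) (hη : 0 < η) :
    ∃ R : ℕ, ∀ ω : ℝ, 0 < ω → ∃ δ : ℝ, 0 < δ ∧ ∀ (N : ℕ) (a : Fin N → ℝ),
      η ≤ ex (fun y : Fin N → Bool => if |ev a y| ≤ δ then (1:ℝ) else 0) →
      ∃ H : Finset (Fin N), H.card ≤ R ∧ ∑ j ∈ Hᶜ, a j ^ 2 < ω ^ 2 := by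
  classical
  obtain ⟨m, hm⟩ := exists_nat_gt (16 / η ^ 2)
  have hm0 : 0 < m := by
    have : (0:ℝ) < m := lt_trans (by positivity) hm
    exact_mod_cast this
  have hmR : (1:ℝ) ≤ m := by exact_mod_cast hm0
  set B : ℝ := ((2 * m).choose m : ℝ) / 2 ^ (2 * m) with hB
  have hB0 : 0 ≤ B := by positivity
  have hB1 : B < η / 4 := by
    have h1 := choose_even_bound m
    rw [← hB] at h1
    have h2 : 16 < m * η ^ 2 := by
      rw [div_lt_iff₀ (by positivity)] at hm
      exact hm
    by_contra hcon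
    push Not at hcon
    have h3 : (η / 4) ^ 2 ≤ B ^ 2 := pow_le_pow_left₀ (by positivity) hcon 2
    nlinarith [sq_nonneg B]
  refine ⟨2 * m, fun ω hω => ?_⟩
  have hpi := Real.pi_pos
  have hpi3 := Real.pi_gt_three
  have hpi4 := Real.pi_le_four
  set P : ℝ := η * ω / 4 with hP
  have hP0 : 0 < P := by positivity
  set t : ℝ := P / (4 * m) with ht
  have ht0 : 0 < t := by positivity
  refine ⟨t / 2, by positivity, fun N a ha => ?_⟩
  set H : Finset (Fin N) := univ.filter (fun j => t ≤ |a j|) with hH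
  have hcard : H.card ≤ 2 * m := by
    by_contra hcon
    push Not at hcon
    obtain ⟨H', hH', hcH⟩ := exists_subset_card_eq (show 2 * m ≤ H.card by omega)
    let e : Fin (2 * m) ↪ Fin N := (H'.orderEmbOfFin hcH).toEmbedding
    have he : ∀ i, t ≤ |a (e i)| := by
      intro i
      have h1 : e i ∈ H' := H'.orderEmbOfFin_mem hcH i
      have h2 := hH' h1
      simpa [hH] using h2
    have h3 := lo e a 0 t (t / 2) he (by linarith)
    rw [Nat.mul_div_cancel_left m (by norm_num), ← hB] at h3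
    simp only [zero_add] at h3
    linarith
  refine ⟨H, hcard, ?_⟩
  by_contra hcon
  push Not at hcon
  have h1 := reg_small H a 0 t (t / 2) ω P m hm0 hP0 hω (by positivity)
    (fun j hj => by
      have : ¬ t ≤ |a j| := by simpa [hH] using hj
      linarith)
    (by
      rw [ht]
      have : 2 * (2 * (m:ℝ)) * (P / (4 * m)) = P := by field_simp; ring
      rw [this])
    (by
      have h2 : Real.pi * (t / 2) / P = Real.pi / (8 * m) := by
        rw [ht]; field_simp; ring
      rw [h2, div_pow, mul_pow]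
      have h3 : Real.pi ^ 2 ≤ 16 := by nlinarith
      rw [div_mul_eq_mul_div, div_le_one (by positivity)]
      nlinarith)
    hcon
  simp only [zero_add] at h1
  rw [← hB] at h1
  have h4 : P / (Real.pi * ω) ≤ η / 12 := by
    rw [hP, div_div, div_le_div_iff₀ (by positivity) (by norm_num)]
    have : 0 < η * ω := by positivity
    nlinarith
  linarith

/-- the standing assumptions of the margin theorem -/
structure Data {N : ℕ} (a : EuclideanSpace ℝ (Fin N)) (h : (Fin N → Bool) → ℝ) (η : ℝ) : Prop where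
  bd : ∀ y, |h y| ≤ 1
  sgn : ∀ y, 0 ≤ h y * ev (fun j => a j) y
  ne : ∀ y, h y ≠ 0 → ev (fun j => a j) y ≠ 0
  mass : η ≤ ex (fun y => |h y|)

/-- indicator that `y` is not orthogonal to `K` -/
noncomputable def off {N : ℕ} (K : Submodule ℝ (EuclideanSpace ℝ (Fin N))) (y : Fin N → Bool) : ℝ :=
  open Classical in if ∀ k ∈ K, ev (fun j => k j) y = 0 then 0 else 1

lemma off_nonneg {N : ℕ} (K : Submodule ℝ (EuclideanSpace ℝ (Fin N))) (y : Fin N → Bool) :
    0 ≤ off K y := by
  unfold off; split_ifs <;> norm_num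

lemma off_le_one {N : ℕ} (K : Submodule ℝ (EuclideanSpace ℝ (Fin N))) (y : Fin N → Bool) :
    off K y ≤ 1 := by
  unfold off; split_ifs <;> norm_num

lemma ev_add' {N : ℕ} (a b : EuclideanSpace ℝ (Fin N)) (y : Fin N → Bool) :
    ev (fun j => (a + b) j) y = ev (fun j => a j) y + ev (fun j => b j) y := by
  rw [← inner_bv, ← inner_bv, ← inner_bv, inner_add_left]

lemma ev_smul' {N : ℕ} (c : ℝ) (a : EuclideanSpace ℝ (Fin N)) (y : Fin N → Bool) :
    ev (fun j => (c • a) j) y = c * ev (fun j => a j) y := by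
  rw [← inner_bv, ← inner_bv, real_inner_smul_left]

theorem step (η : ℝ) (hη : 0 < η) (ρ : ℝ) (hρ : 0 < ρ) :
    ∃ δ : ℝ, 0 < δ ∧ ∀ (N : ℕ) (a : EuclideanSpace ℝ (Fin N)) (h : (Fin N → Bool) → ℝ),
      Data a h η → ∑ j, (ex (fun y => h y * sg (y j))) ^ 2 ≤ δ ^ 2 →
      ∀ K : Submodule ℝ (EuclideanSpace ℝ (Fin N)), ex (fun y => |h y| * off K y) ≤ δ →
      ∃ α : EuclideanSpace ℝ (Fin N), α ∉ K ∧
        ex (fun y => |h y| * (if ev (fun j => α j) y = 0 then 0 else 1)) ≤ ρ := by
  classical
  obtain ⟨R, hR⟩ := inverse_small_ball (η / 2) (by positivity)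
  obtain ⟨C, hC0, hC⟩ := round_head R
  -- constants
  set T : ℝ := 1 / (8 * (C + 1)) with hT
  have hT0 : 0 < T := by positivity
  have hCT : C * T ≤ 1 / 8 := by
    rw [hT, mul_one_div, div_le_div_iff₀ (by positivity) (by norm_num)]
    linarith
  set ω : ℝ := min (1 / 8) (min ρ 1 * T / 2) with hω
  have hω0 : 0 < ω := by
    rw [hω]
    exact lt_min (by norm_num) (by have : 0 < min ρ 1 := lt_min hρ one_pos
                                   positivity)
  have hω8 : ω ≤ 1 / 8 := min_le_left _ _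
  have hωT : ω ^ 2 ≤ ρ / 2 * T ^ 2 := by
    have h1 : ω ≤ min ρ 1 * T / 2 := min_le_right _ _
    have h2 : ω ^ 2 ≤ (min ρ 1 * T / 2) ^ 2 := pow_le_pow_left₀ hω0.le h1 2
    have h3 : min ρ 1 * min ρ 1 ≤ ρ * 1 :=
      mul_le_mul (min_le_left _ _) (min_le_right _ _) (le_min hρ.le zero_le_one) hρ.le
    have h4 : 0 < T ^ 2 := by positivity
    nlinarith
  obtain ⟨δ1, hδ1, hisb⟩ := hR ω hω0
  set l : ℝ := min (min (ρ / 2) (η / 2)) (min T δ1) with hl
  have hl0 : 0 < l := by
    rw [hl]
    exact lt_min (lt_min (by positivity) (by positivity)) (lt_min hT0 hδ1)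
  have hlρ : l ≤ ρ / 2 := (min_le_left _ _).trans (min_le_left _ _)
  have hlη : l ≤ η / 2 := (min_le_left _ _).trans (min_le_right _ _)
  have hlT : l ≤ T := (min_le_right _ _).trans (min_le_left _ _)
  have hlδ : l ≤ δ1 := (min_le_right _ _).trans (min_le_right _ _)
  set δ : ℝ := min (min (l ^ 2 / 2) (l ^ 4 / 16)) (η / 2) with hδ
  have hδ0 : 0 < δ := by
    rw [hδ]
    exact lt_min (lt_min (by positivity) (by positivity)) (by positivity)
  have hδa : δ ≤ l ^ 2 / 2 := (min_le_left _ _).trans (min_le_left _ _)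
  have hδb : δ ≤ l ^ 4 / 16 := (min_le_left _ _).trans (min_le_right _ _)
  have hδη : δ ≤ η / 2 := min_le_right _ _
  refine ⟨δ, hδ0, fun N a h hD hd K hK => ?_⟩
  -- decomposition of a
  obtain ⟨k, hk, q, hq, hkq⟩ := K.exists_add_mem_mem_orthogonal a
  have hqK : ∀ y, (∀ k ∈ K, ev (fun j => k j) y = 0) →
      ev (fun j => q j) y = ev (fun j => a j) y := by
    intro y hy
    rw [hkq, ev_add', hy k hk, zero_add]
  have hq0 : q ≠ 0 := by
    have h1 : 0 < ex (fun y => |h y| * (1 - off K y)) := by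
      have h2 : (fun y => |h y| * (1 - off K y)) = fun y => |h y| - |h y| * off K y := by
        funext y; ring
      rw [h2, ex_sub]
      linarith [hD.mass]
    obtain ⟨y, hy⟩ := ex_pos_exists h1
    have h3 : h y ≠ 0 := by
      rintro h0
      rw [h0] at hy
      simp at hy
    have h4 : ∀ k ∈ K, ev (fun j => k j) y = 0 := by
      by_contra hcon
      unfold off at hy
      rw [if_neg hcon] at hy
      simp at hy
    intro h5
    have h6 := hqK y h4
    rw [h5] at h6
    apply hD.ne y h3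
    rw [← h6]
    unfold ev
    simp
  have hqn : 0 < ‖q‖ := norm_pos_iff.mpr hq0
  set u : EuclideanSpace ℝ (Fin N) := ‖q‖⁻¹ • q with hu
  have hun : ‖u‖ = 1 := by
    rw [hu, norm_smul, norm_inv, norm_norm, inv_mul_cancel₀ hqn.ne']
  have huK : u ∈ Kᗮ := Submodule.smul_mem _ _ hq
  have husq : ∑ j, u j ^ 2 = 1 := by rw [← norm_sq_sum, hun]; norm_num
  have hev2 : ex (fun y => ev (fun j => u j) y ^ 2) = 1 := by
    rw [ex_ev_sq, husq]
  -- E |h||ev u| small
  have hlin : ex (fun y => h y * ev (fun j => u j) y) ≤ δ := by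
    have h1 : ex (fun y => h y * ev (fun j => u j) y) =
        ∑ j, u j * ex (fun y => h y * sg (y j)) := by
      have : (fun y : Fin N → Bool => h y * ev (fun j => u j) y) =
          fun y => ∑ j, u j * (h y * sg (y j)) := by
        funext y
        unfold ev
        rw [mul_sum]
        exact sum_congr rfl fun j _ => by ring
      rw [this, ex_sum]
      exact sum_congr rfl fun j _ => ex_mul_left _ _
    rw [h1]
    have h2 := sum_mul_sq_le_sq_mul_sq univ (fun j => u j) (fun j => ex (fun y => h y * sg (y j)))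
    rw [husq, one_mul] at h2
    exact (abs_le_of_sq_le_sq' (h2.trans hd) hδ0.le).2
  have hpt : ∀ y, |h y| * |ev (fun j => u j) y| ≤ h y * ev (fun j => u j) y +
      (l ^ 2 / 4 * ev (fun j => u j) y ^ 2 + (4 / l ^ 2) * (|h y| * off K y)) := by
    intro y
    by_cases hy : ∀ k ∈ K, ev (fun j => k j) y = 0
    · have h1 : off K y = 0 := by unfold off; rw [if_pos hy]
      rw [h1, mul_zero, mul_zero, add_zero]
      have h2 : 0 ≤ h y * ev (fun j => u j) y := by
        rw [hu, ev_smul', hqK y hy]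
        have := hD.sgn y
        have h3 : 0 ≤ ‖q‖⁻¹ := by positivity
        calc (0:ℝ) ≤ ‖q‖⁻¹ * (h y * ev (fun j => a j) y) := mul_nonneg h3 this
          _ = _ := by ring
      rw [← abs_mul, abs_of_nonneg h2]
      have : 0 ≤ l ^ 2 / 4 * ev (fun j => u j) y ^ 2 := by positivity
      linarith
    · have h1 : off K y = 1 := by unfold off; rw [if_neg hy]
      rw [h1, mul_one]
      have h2 : -(|h y| * |ev (fun j => u j) y|) ≤ h y * ev (fun j => u j) y := by
        rw [← abs_mul]; exact neg_abs_le _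
      have h3 : |h y| ^ 2 ≤ |h y| := by
        have := hD.bd y
        nlinarith [abs_nonneg (h y)]
      set A := |ev (fun j => u j) y| with hA
      have hA2 : ev (fun j => u j) y ^ 2 = A ^ 2 := by rw [hA, sq_abs]
      rw [hA2]
      set b := |h y| with hb
      have hl2 : 0 < l ^ 2 := by positivity
      -- 2 b A ≤ l²/4 A² + 4/l² b²
      have h4 : 2 * (b * A) ≤ l ^ 2 / 4 * A ^ 2 + 4 / l ^ 2 * b ^ 2 := by
        have h5 : 0 ≤ (l / 2 * A - 2 / l * b) ^ 2 := sq_nonneg _
        have h6 : (l / 2 * A - 2 / l * b) ^ 2 = l ^ 2 / 4 * A ^ 2 + 4 / l ^ 2 * b ^ 2 - 2 * (b * A) := by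
          field_simp
          ring
        linarith
      have h7 : 4 / l ^ 2 * b ^ 2 ≤ 4 / l ^ 2 * b := mul_le_mul_of_nonneg_left h3 (by positivity)
      linarith
  have hE : ex (fun y => |h y| * |ev (fun j => u j) y|) ≤ l ^ 2 := by
    refine (ex_mono hpt).trans ?_
    rw [ex_add, ex_add, ex_mul_left, ex_mul_left, hev2]
    have h1 : 4 / l ^ 2 * ex (fun y => |h y| * off K y) ≤ 4 / l ^ 2 * (l ^ 4 / 16) :=
      mul_le_mul_of_nonneg_left (hK.trans hδb) (by positivity)
    have h2 : 4 / l ^ 2 * (l ^ 4 / 16) = l ^ 2 / 4 := by field_simp; ring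
    rw [h2] at h1
    linarith
  -- Markov
  have hM : ex (fun y => |h y| * (if |ev (fun j => u j) y| ≤ l then 0 else 1)) ≤ l := by
    have h1 : ∀ y, |h y| * (if |ev (fun j => u j) y| ≤ l then (0:ℝ) else 1) ≤
        l⁻¹ * (|h y| * |ev (fun j => u j) y|) := by
      intro y
      have h0 := abs_nonneg (h y)
      have h00 := abs_nonneg (ev (fun j => u j) y)
      split_ifs with h2
      · rw [mul_zero]; positivity
      · push Not at h2
        rw [mul_one]
        have h3 : 1 ≤ l⁻¹ * |ev (fun j => u j) y| := by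
          rw [inv_mul_eq_div, one_le_div hl0]
          exact h2.le
        calc |h y| = |h y| * 1 := by ring
          _ ≤ |h y| * (l⁻¹ * |ev (fun j => u j) y|) := mul_le_mul_of_nonneg_left h3 h0
          _ = _ := by ring
    refine (ex_mono h1).trans ?_
    rw [ex_mul_left]
    calc l⁻¹ * ex (fun y => |h y| * |ev (fun j => u j) y|) ≤ l⁻¹ * l ^ 2 :=
          mul_le_mul_of_nonneg_left hE (by positivity)
      _ = l := by field_simp
  have hP : η / 2 ≤ ex (fun y : Fin N → Bool => if |ev (fun j => u j) y| ≤ δ1 then (1:ℝ) else 0) := by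
    have h1 : ∀ y, |h y| ≤ (if |ev (fun j => u j) y| ≤ δ1 then (1:ℝ) else 0) +
        |h y| * (if |ev (fun j => u j) y| ≤ l then 0 else 1) := by
      intro y
      have h0 := abs_nonneg (h y)
      have hb := hD.bd y
      by_cases h2 : |ev (fun j => u j) y| ≤ l
      · rw [if_pos (h2.trans hlδ), if_pos h2]
        linarith
      · rw [if_neg h2, mul_one]
        split_ifs <;> linarith
    have h2 := ex_mono h1
    rw [ex_add] at h2
    linarith [hD.mass]
  obtain ⟨H, hHR, htail⟩ := hisb N (fun j => u j) hP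
  obtain ⟨α, hα0, hα1, hα2⟩ := hC N H hHR (fun j => u j) (l + T) (by positivity)
  refine ⟨WithLp.toLp 2 α, ?_, ?_⟩
  · intro hmem
    have h1 : inner ℝ (WithLp.toLp 2 α : EuclideanSpace ℝ (Fin N)) u = 0 :=
      (Submodule.mem_orthogonal K u).mp huK _ hmem
    have h2 : ∑ j, (u j - α j) ^ 2 = 1 + ∑ j, α j ^ 2 := by
      have h3 : inner ℝ (WithLp.toLp 2 α : EuclideanSpace ℝ (Fin N)) u = ∑ j, u j * α j := by
        rw [PiLp.inner_apply]
        exact sum_congr rfl fun j _ => by simp
      rw [h3] at h1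
      have h4 : ∀ j, (u j - α j) ^ 2 = u j ^ 2 + α j ^ 2 - 2 * (u j * α j) := fun j => by ring
      simp only [h4]
      rw [sum_sub_distrib, sum_add_distrib, ← mul_sum, h1, husq]
      ring
    have h5 : ∑ j, (u j - α j) ^ 2 ≤ (C * (l + T)) ^ 2 + ω ^ 2 := by
      rw [← sum_add_sum_compl H]
      have h6 : ∑ j ∈ Hᶜ, (u j - α j) ^ 2 = ∑ j ∈ Hᶜ, u j ^ 2 := by
        refine sum_congr rfl fun j hj => ?_
        rw [hα0 j (by simpa using hj), sub_zero]
      rw [h6]
      linarith [hα2]
    have h7 : C * (l + T) ≤ 1 / 4 := by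
      have : C * l ≤ C * T := mul_le_mul_of_nonneg_left hlT hC0.le
      linarith
    have h8 : 0 ≤ C * (l + T) := by positivity
    have h9 : 0 ≤ ∑ j, α j ^ 2 := sum_nonneg fun _ _ => sq_nonneg _
    nlinarith
  · -- mass of α ≠ 0
    set tl : Fin N → ℝ := fun j => if j ∈ H then 0 else u j with htl
    have hsplit : ∀ y : Fin N → Bool, ev (fun j => u j) y = ∑ j ∈ H, u j * sg (y j) + ev tl y := by
      intro y
      unfold ev
      rw [← sum_add_sum_compl H (fun j => u j * sg (y j)), ← sum_add_sum_compl H (fun j => tl j * sg (y j))]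
      have h1 : ∑ j ∈ H, tl j * sg (y j) = 0 := sum_eq_zero fun j hj => by simp [htl, hj]
      have h2 : ∑ j ∈ Hᶜ, tl j * sg (y j) = ∑ j ∈ Hᶜ, u j * sg (y j) := by
        refine sum_congr rfl fun j hj => ?_
        have : j ∉ H := by simpa using hj
        simp [htl, this]
      rw [h1, h2, zero_add]
    have htlsq : ∑ j, tl j ^ 2 < ω ^ 2 := by
      rw [← sum_add_sum_compl H]
      have h1 : ∑ j ∈ H, tl j ^ 2 = 0 := sum_eq_zero fun j hj => by simp [htl, hj]
      have h2 : ∑ j ∈ Hᶜ, tl j ^ 2 = ∑ j ∈ Hᶜ, u j ^ 2 := by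
        refine sum_congr rfl fun j hj => ?_
        have : j ∉ H := by simpa using hj
        simp [htl, this]
      rw [h1, h2, zero_add]
      exact htail
    have h3 : ∀ y, |h y| * (if ev (fun j => (WithLp.toLp 2 α : EuclideanSpace ℝ (Fin N)) j) y = 0 then 0 else 1) ≤
        |h y| * (if |ev (fun j => u j) y| ≤ l then 0 else 1) + (T ^ 2)⁻¹ * ev tl y ^ 2 := by
      intro y
      have h0 := abs_nonneg (h y)
      have hb := hD.bd y
      have hnn : 0 ≤ (T ^ 2)⁻¹ * ev tl y ^ 2 := by positivity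
      by_cases h4 : ev (fun j => (WithLp.toLp 2 α : EuclideanSpace ℝ (Fin N)) j) y = 0
      · rw [if_pos h4, mul_zero]
        have : 0 ≤ |h y| * (if |ev (fun j => u j) y| ≤ l then (0:ℝ) else 1) := by
          split_ifs <;> simp
        linarith
      · rw [if_neg h4, mul_one]
        by_cases h5 : |ev (fun j => u j) y| ≤ l
        · rw [if_pos h5, mul_zero, zero_add]
          have h6 : ¬ |∑ j ∈ H, u j * sg (y j)| ≤ l + T := fun hh => h4 (hα1 y hh)
          have h7 : T < |ev tl y| := by
            by_contra hcon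
            push Not at hcon
            apply h6
            have h8 : ∑ j ∈ H, u j * sg (y j) = ev (fun j => u j) y - ev tl y := by
              rw [hsplit y]; ring
            rw [h8]
            calc |ev (fun j => u j) y - ev tl y| ≤ |ev (fun j => u j) y| + |ev tl y| := abs_sub _ _
              _ ≤ l + T := by linarith
          have h9 : T ^ 2 ≤ ev tl y ^ 2 := by
            rw [← sq_abs (ev tl y)]
            exact pow_le_pow_left₀ hT0.le h7.le 2
          have h10 : 1 ≤ (T ^ 2)⁻¹ * ev tl y ^ 2 := by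
            rw [inv_mul_eq_div, one_le_div (by positivity)]
            exact h9
          linarith
        · rw [if_neg h5, mul_one]
          linarith
    refine (ex_mono h3).trans ?_
    rw [ex_add, ex_mul_left, ex_ev_sq]
    have h11 : (T ^ 2)⁻¹ * ∑ j, tl j ^ 2 ≤ ρ / 2 := by
      rw [inv_mul_eq_div, div_le_iff₀ (by positivity)]
      linarith
    linarith

end Pool.Agent.H457R3.HS
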