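import Pool.Agent.H457R3.HS.Basic

set_option autoImplicit false

namespace Pool.Agent.H457R3.HS

open Finset

section
variable {ι : Type*} [Fintype ι] [DecidableEq ι]

/-- Walsh character -/
def chi (T : Finset ι) (x : ι → Bool) : ℝ := ∏ i ∈ T, sg (x i)

/-- Walsh coefficient -/
noncomputable def hat (h : (ι → Bool) → ℝ) (T : Finset ι) : ℝ := ex (fun x => h x * chi T x)

lemma chi_orth (T T' : Finset ι) :
    ex (fun x => chi T x * chi T' x) = if T = T' then 1 else 0 := by
  have h1 : (fun x : ι → Bool => chi T x * chi T' x) =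
      fun x => ∏ i, ((if i ∈ T then sg (x i) else 1) * (if i ∈ T' then sg (x i) else 1)) := by
    funext x
    unfold chi
    rw [prod_mul_distrib]
    congr 1
    · rw [prod_ite_mem, univ_inter]
    · rw [prod_ite_mem, univ_inter]
  rw [h1, ex_prod (fun i b => (if i ∈ T then sg b else 1) * (if i ∈ T' then sg b else 1))]
  by_cases h : T = T'
  · subst h
    rw [if_pos rfl]
    refine prod_eq_one fun i _ => ?_
    by_cases hi : i ∈ T
    · simp [hi, sg]
    · simp [hi]
  · rw [if_neg h]
    have : ∃ i, ¬ (i ∈ T ↔ i ∈ T') := by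
      by_contra hcon
      push Not at hcon
      exact h (Finset.ext fun i => hcon i)
    obtain ⟨i, hi⟩ := this
    refine prod_eq_zero (mem_univ i) ?_
    by_cases h1 : i ∈ T <;> by_cases h2 : i ∈ T' <;> simp_all [sg]

lemma parseval (C : Finset ι → ℝ) :
    ex (fun x => (∑ T, C T * chi T x) ^ 2) = ∑ T, C T ^ 2 := by
  have h1 : ∀ x : ι → Bool, (∑ T, C T * chi T x) ^ 2 =
      ∑ T, ∑ T', (C T * C T') * (chi T x * chi T' x) := by
    intro x
    rw [sq, sum_mul_sum]
    refine sum_congr rfl fun i _ => sum_congr rfl fun j _ => ?_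
    ring
  simp only [h1]
  rw [ex_sum]
  refine sum_congr rfl fun T _ => ?_
  rw [ex_sum]
  simp only [ex_mul_left, chi_orth]
  simp [sq]

lemma inversion (h : (ι → Bool) → ℝ) (x : ι → Bool) : h x = ∑ T, hat h T * chi T x := by
  have h1 : ∀ x' : ι → Bool, ∑ T : Finset ι, chi T x' * chi T x =
      if x' = x then 2 ^ Fintype.card ι else 0 := by
    intro x'
    have h2 : ∑ T : Finset ι, chi T x' * chi T x = ∏ i, (1 + sg (x' i) * sg (x i)) := by
      rw [prod_one_add, powerset_univ]
      refine sum_congr rfl fun T _ => ?_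
      unfold chi
      rw [prod_mul_distrib]
    rw [h2]
    by_cases hx : x' = x
    · subst hx
      rw [if_pos rfl]
      simp only [sg_mul_self]
      rw [prod_const, card_univ]
      norm_num
    · rw [if_neg hx]
      have : ∃ i, x' i ≠ x i := by
        by_contra hcon
        push Not at hcon
        exact hx (funext hcon)
      obtain ⟨i, hi⟩ := this
      refine prod_eq_zero (mem_univ i) ?_
      revert hi
      cases x' i <;> cases x i <;> simp [sg]
  unfold hat ex
  have h3 : ∑ T : Finset ι, (∑ y, h y * chi T y) / 2 ^ Fintype.card ι * chi T x =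
      (∑ y, h y * ∑ T : Finset ι, chi T y * chi T x) / 2 ^ Fintype.card ι := by
    rw [sum_div]
    simp only [sum_div, sum_mul, mul_sum]
    rw [sum_comm]
    refine sum_congr rfl fun y _ => sum_congr rfl fun T _ => ?_
    ring
  rw [h3]
  simp only [h1, mul_ite, mul_zero]
  rw [sum_ite_eq' univ x, if_pos (mem_univ x)]
  have : (2:ℝ) ^ Fintype.card ι ≠ 0 := by positivity
  field_simp

lemma sum_hat_sq (h : (ι → Bool) → ℝ) : ∑ T, hat h T ^ 2 = ex (fun x => h x ^ 2) := by
  rw [← parseval]
  congr 1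
  funext x
  rw [← inversion]

/-- second and fourth moments of sums of signs -/
lemma moment2 (S : Finset ι) : ex (fun y : ι → Bool => (∑ j ∈ S, sg (y j)) ^ 2) = S.card := by
  have h := ex_ev_sq (fun j : ι => if j ∈ S then (1:ℝ) else 0)
  have h1 : ∀ y : ι → Bool, ev (fun j : ι => if j ∈ S then (1:ℝ) else 0) y = ∑ j ∈ S, sg (y j) := by
    intro y
    unfold ev
    simp
  simp only [h1] at h
  rw [h]
  simp

lemma moment4 (S : Finset ι) :
    ex (fun y : ι → Bool => (∑ j ∈ S, sg (y j)) ^ 4) ≤ 3 * (S.card : ℝ) ^ 2 := by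
  suffices h : ex (fun y : ι → Bool => (∑ j ∈ S, sg (y j)) ^ 4) = 3 * (S.card : ℝ) ^ 2 - 2 * S.card by
    rw [h]
    have : (0:ℝ) ≤ S.card := by positivity
    linarith
  induction S using Finset.induction_on with
  | empty => simp [ex_const]
  | insert j S hj ih =>
    have h1 : ∀ y : ι → Bool, (∑ i ∈ insert j S, sg (y i)) ^ 4 =
        ((∑ i ∈ S, sg (y i)) ^ 4 + 6 * (∑ i ∈ S, sg (y i)) ^ 2 + 1) +
        ((4 * (∑ i ∈ S, sg (y i)) ^ 3 + 4 * (∑ i ∈ S, sg (y i))) * sg (y j)) := by
      intro y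
      rw [sum_insert hj]
      set A := ∑ i ∈ S, sg (y i)
      have h2 := sg_sq (y j)
      have h3 : sg (y j) ^ 3 = sg (y j) := by rw [pow_succ, h2, one_mul]
      have h4 : sg (y j) ^ 4 = 1 := by
        calc sg (y j) ^ 4 = (sg (y j) ^ 2) ^ 2 := by ring
          _ = 1 := by rw [h2]; norm_num
      calc (sg (y j) + A) ^ 4 = A ^ 4 + 4 * A ^ 3 * sg (y j) + 6 * A ^ 2 * sg (y j) ^ 2 +
            4 * A * sg (y j) ^ 3 + sg (y j) ^ 4 := by ring
        _ = _ := by rw [h2, h3, h4]; ring
    have hdep : ∀ y : ι → Bool, ∑ i ∈ S, sg (flip {j} y i) = ∑ i ∈ S, sg (y i) := by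
      intro y
      refine sum_congr rfl fun i hi => ?_
      have : i ≠ j := fun h => hj (h ▸ hi)
      simp [flip, this]
    simp only [h1]
    rw [ex_add, ex_add, ex_add, ex_mul_left, ih, moment2, ex_const,
      ex_mul_sg_zero j (fun y => 4 * (∑ i ∈ S, sg (y i)) ^ 3 + 4 * (∑ i ∈ S, sg (y i)))
        (fun y => by rw [hdep y])]
    rw [card_insert_of_notMem hj]
    push_cast
    ring

end

end Pool.Agent.H457R3.HS
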